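import Mathlib

/-!
Subword complexity of finite binary words: first and second differences, special words.
-/

set_option autoImplicit false

namespace Pool.Agent.Q289.SW

open Finset

/-- the word of length `j` at position `a` -/
def W (f : ℕ → Fin 2) (a j : ℕ) : List (Fin 2) := (List.range j).map fun t => f (a + t)

/-- the factors of length `j` of the word `f 0 ⋯ f (n-1)` -/
def F (f : ℕ → Fin 2) (n j : ℕ) : Finset (List (Fin 2)) :=
  (range (n + 1 - j)).image fun a => W f a j

variable {f : ℕ → Fin 2} {n : ℕ}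

theorem W_eq_iff {a b j : ℕ} : W f a j = W f b j ↔ ∀ t < j, f (a + t) = f (b + t) := by
  unfold W
  rw [List.map_inj_left]
  simp

theorem W_length (a j : ℕ) : (W f a j).length = j := by simp [W]

theorem W_right (a j : ℕ) : W f a (j + 1) = W f a j ++ [f (a + j)] := by
  unfold W
  rw [List.range_succ, List.map_append]
  rfl

theorem W_left (a j : ℕ) : W f a (j + 1) = f a :: W f (a + 1) j := by
  unfold W
  rw [List.range_succ_eq_map, List.map_cons, List.map_map]
  congr 1
  apply List.map_congr_left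
  intro t _
  simp only [Function.comp]
  congr 1
  omega

theorem mem_F {j : ℕ} {v : List (Fin 2)} : v ∈ F f n j ↔ ∃ a, a + j ≤ n ∧ W f a j = v := by
  unfold F
  rw [mem_image]
  constructor
  · rintro ⟨a, ha, h⟩
    rw [mem_range] at ha
    exact ⟨a, by omega, h⟩
  · rintro ⟨a, ha, h⟩
    exact ⟨a, by rw [mem_range]; omega, h⟩

theorem length_of_mem {j : ℕ} {v : List (Fin 2)} (h : v ∈ F f n j) : v.length = j := by
  obtain ⟨a, _, rfl⟩ := mem_F.1 h
  exact W_length _ _

theorem mem_R {j : ℕ} {v : List (Fin 2)} {b : Fin 2} : v ++ [b] ∈ F f n (j + 1) ↔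
    ∃ a, a + j + 1 ≤ n ∧ W f a j = v ∧ f (a + j) = b := by
  rw [mem_F]
  constructor
  · rintro ⟨a, ha, h⟩
    rw [W_right] at h
    obtain ⟨h1, h2⟩ := List.append_inj' h rfl
    exact ⟨a, by omega, h1, by simpa using h2⟩
  · rintro ⟨a, ha, h1, h2⟩
    exact ⟨a, by omega, by rw [W_right, h1, h2]⟩

theorem mem_L {j : ℕ} {v : List (Fin 2)} {a : Fin 2} : a :: v ∈ F f n (j + 1) ↔
    ∃ p, p + 1 + j ≤ n ∧ f p = a ∧ W f (p + 1) j = v := by
  rw [mem_F]
  constructor
  · rintro ⟨p, hp, h⟩
    rw [W_left] at h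
    exact ⟨p, by omega, (List.cons.inj h).1, (List.cons.inj h).2⟩
  · rintro ⟨p, hp, h1, h2⟩
    exact ⟨p, by omega, by rw [W_left, h1, h2]⟩

theorem mem_E {j : ℕ} {v : List (Fin 2)} {a b : Fin 2} : a :: (v ++ [b]) ∈ F f n (j + 2) ↔
    ∃ p, p + 1 + j + 1 ≤ n ∧ f p = a ∧ W f (p + 1) j = v ∧ f (p + 1 + j) = b := by
  rw [mem_L]
  constructor
  · rintro ⟨p, hp, h1, h⟩
    rw [W_right] at h
    obtain ⟨h2, h3⟩ := List.append_inj' h rfl
    exact ⟨p, by omega, h1, h2, by simpa using h3⟩
  · rintro ⟨p, hp, h1, h2, h3⟩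
    exact ⟨p, by omega, h1, by rw [W_right, h2, h3]⟩

/-! ### Counting -/

theorem card_right (j : ℕ) : (F f n (j + 1)).card =
    ∑ v ∈ F f n j, ∑ b : Fin 2, if v ++ [b] ∈ F f n (j + 1) then 1 else 0 := by
  classical
  have hmap : ∀ u ∈ F f n (j + 1), u.dropLast ∈ F f n j := by
    intro u hu
    obtain ⟨a, ha, rfl⟩ := mem_F.1 hu
    rw [W_right, List.dropLast_concat]
    exact mem_F.2 ⟨a, by omega, rfl⟩
  rw [card_eq_sum_card_fiberwise hmap]
  apply sum_congr rfl
  intro v _
  have : (F f n (j + 1)).filter (fun u => u.dropLast = v) =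
      (univ.filter fun b : Fin 2 => v ++ [b] ∈ F f n (j + 1)).image fun b => v ++ [b] := by
    ext u
    simp only [mem_filter, mem_image, mem_univ, true_and]
    constructor
    · rintro ⟨h1, h2⟩
      have h3 : u ≠ [] := by
        intro h
        have := length_of_mem h1
        rw [h] at this
        simp at this
      refine ⟨u.getLast h3, ?_, ?_⟩
      · rw [← h2, List.dropLast_append_getLast h3]
        exact h1
      · rw [← h2, List.dropLast_append_getLast h3]
    · rintro ⟨b, h1, rfl⟩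
      exact ⟨h1, List.dropLast_concat⟩
  rw [this, card_image_of_injective, card_filter]
  intro b b' h
  simpa using h

theorem card_left (j : ℕ) : (F f n (j + 1)).card =
    ∑ v ∈ F f n j, ∑ a : Fin 2, if a :: v ∈ F f n (j + 1) then 1 else 0 := by
  classical
  have hmap : ∀ u ∈ F f n (j + 1), u.tail ∈ F f n j := by
    intro u hu
    obtain ⟨a, ha, rfl⟩ := mem_F.1 hu
    rw [W_left, List.tail_cons]
    exact mem_F.2 ⟨a + 1, by omega, rfl⟩
  rw [card_eq_sum_card_fiberwise hmap]
  apply sum_congr rfl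
  intro v _
  have : (F f n (j + 1)).filter (fun u => u.tail = v) =
      (univ.filter fun a : Fin 2 => a :: v ∈ F f n (j + 1)).image fun a => a :: v := by
    ext u
    simp only [mem_filter, mem_image, mem_univ, true_and]
    constructor
    · rintro ⟨h1, h2⟩
      cases u with
      | nil =>
        have := length_of_mem h1
        simp at this
      | cons a u =>
        rw [List.tail_cons] at h2
        subst h2
        exact ⟨a, h1, rfl⟩
    · rintro ⟨b, h1, rfl⟩
      exact ⟨h1, rfl⟩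
  rw [this, card_image_of_injective, card_filter]
  intro b b' h
  simpa using h

theorem card_both (j : ℕ) : (F f n (j + 2)).card =
    ∑ v ∈ F f n j, ∑ ab : Fin 2 × Fin 2, if ab.1 :: (v ++ [ab.2]) ∈ F f n (j + 2) then 1 else 0 := by
  classical
  have hmap : ∀ u ∈ F f n (j + 2), u.tail.dropLast ∈ F f n j := by
    intro u hu
    obtain ⟨a, ha, rfl⟩ := mem_F.1 hu
    rw [W_left, List.tail_cons, W_right, List.dropLast_concat]
    exact mem_F.2 ⟨a + 1, by omega, rfl⟩
  rw [card_eq_sum_card_fiberwise hmap]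
  apply sum_congr rfl
  intro v _
  have : (F f n (j + 2)).filter (fun u => u.tail.dropLast = v) =
      (univ.filter fun ab : Fin 2 × Fin 2 => ab.1 :: (v ++ [ab.2]) ∈ F f n (j + 2)).image
        fun ab => ab.1 :: (v ++ [ab.2]) := by
    ext u
    simp only [mem_filter, mem_image, mem_univ, true_and]
    constructor
    · rintro ⟨h1, h2⟩
      cases u with
      | nil =>
        have := length_of_mem h1
        simp at this
      | cons a u =>
        rw [List.tail_cons] at h2
        have h3 : u ≠ [] := by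
          intro h
          have := length_of_mem h1
          rw [h] at this
          simp at this
        refine ⟨(a, u.getLast h3), ?_, ?_⟩
        · simp only
          rw [← h2, List.dropLast_append_getLast h3]
          exact h1
        · simp only
          rw [← h2, List.dropLast_append_getLast h3]
    · rintro ⟨b, h1, rfl⟩
      exact ⟨h1, by rw [List.tail_cons, List.dropLast_concat]⟩
  rw [this, card_image_of_injective, card_filter]
  rintro ⟨a, b⟩ ⟨a', b'⟩ h
  simpa using h

/-! ### The multiplicity of a word -/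

/-- all four extensions `avb` are factors -/
def Strong (f : ℕ → Fin 2) (n j : ℕ) (v : List (Fin 2)) : Prop :=
  ∀ a b : Fin 2, a :: (v ++ [b]) ∈ F f n (j + 2)

/-- the extensions `avb` that are factors form a perfect matching -/
def Weak (f : ℕ → Fin 2) (n j : ℕ) (v : List (Fin 2)) : Prop :=
  (0 :: (v ++ [0]) ∈ F f n (j + 2) ∧ 1 :: (v ++ [1]) ∈ F f n (j + 2) ∧
    0 :: (v ++ [1]) ∉ F f n (j + 2) ∧ 1 :: (v ++ [0]) ∉ F f n (j + 2)) ∨
  (0 :: (v ++ [1]) ∈ F f n (j + 2) ∧ 1 :: (v ++ [0]) ∈ F f n (j + 2) ∧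
    0 :: (v ++ [0]) ∉ F f n (j + 2) ∧ 1 :: (v ++ [1]) ∉ F f n (j + 2))

instance (f : ℕ → Fin 2) (n j : ℕ) (v : List (Fin 2)) : Decidable (Strong f n j v) := by
  unfold Strong; infer_instance

instance (f : ℕ → Fin 2) (n j : ℕ) (v : List (Fin 2)) : Decidable (Weak f n j v) := by
  unfold Weak; infer_instance

/-- the multiplicity -/
def mult (f : ℕ → Fin 2) (n j : ℕ) (v : List (Fin 2)) : ℤ :=
  (∑ ab : Fin 2 × Fin 2, if ab.1 :: (v ++ [ab.2]) ∈ F f n (j + 2) then 1 else 0) -
  (∑ a : Fin 2, if a :: v ∈ F f n (j + 1) then 1 else 0) -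
  (∑ b : Fin 2, if v ++ [b] ∈ F f n (j + 1) then 1 else 0) + 1

/-- first difference of the complexity -/
def s (f : ℕ → Fin 2) (n j : ℕ) : ℤ := ((F f n (j + 1)).card : ℤ) - (F f n j).card

theorem s_succ_sub (j : ℕ) : s f n (j + 1) - s f n j = ∑ v ∈ F f n j, mult f n j v := by
  have h1 := card_right (f := f) (n := n) j
  have h2 := card_left (f := f) (n := n) j
  have h3 := card_both (f := f) (n := n) j
  zify at h1 h2 h3
  unfold s mult
  rw [sum_add_distrib, sum_sub_distrib, sum_sub_distrib, sum_const, nsmul_eq_mul, mul_one,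
    ← h1, ← h2, ← h3]
  ring

theorem s_eq (j : ℕ) : s f n j =
    ∑ v ∈ F f n j, ((∑ b : Fin 2, if v ++ [b] ∈ F f n (j + 1) then (1 : ℤ) else 0) - 1) := by
  have h1 := card_right (f := f) (n := n) j
  zify at h1
  unfold s
  rw [sum_sub_distrib, sum_const, nsmul_eq_mul, mul_one, ← h1]

theorem s_eq' (j : ℕ) : s f n j =
    ∑ v ∈ F f n j, ((∑ a : Fin 2, if a :: v ∈ F f n (j + 1) then (1 : ℤ) else 0) - 1) := by
  have h1 := card_left (f := f) (n := n) j
  zify at h1
  unfold s
  rw [sum_sub_distrib, sum_const, nsmul_eq_mul, mul_one, ← h1]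

theorem bool_upper : ∀ r0 r1 l0 l1 e00 e01 e10 e11 : Bool,
    (e00 = true → l0 = true ∧ r0 = true) → (e01 = true → l0 = true ∧ r1 = true) →
    (e10 = true → l1 = true ∧ r0 = true) → (e11 = true → l1 = true ∧ r1 = true) →
    (r0 || r1 || l0 || l1) = true →
    ((if e00 then 1 else 0) + (if e01 then 1 else 0) + ((if e10 then 1 else 0) +
      (if e11 then 1 else 0)) - ((if l0 then 1 else 0) + (if l1 then 1 else 0)) -
      ((if r0 then 1 else 0) + (if r1 then 1 else 0)) + 1 : ℤ) ≤
      if e00 && e01 && e10 && e11 then 1 else 0 := by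
  decide

theorem bool_lower : ∀ r0 r1 l0 l1 e00 e01 e10 e11 : Bool,
    (e00 = true → l0 = true ∧ r0 = true) → (e01 = true → l0 = true ∧ r1 = true) →
    (e10 = true → l1 = true ∧ r0 = true) → (e11 = true → l1 = true ∧ r1 = true) →
    (r0 = true → e00 = true ∨ e10 = true) → (r1 = true → e01 = true ∨ e11 = true) →
    (l0 = true → e00 = true ∨ e01 = true) → (l1 = true → e10 = true ∨ e11 = true) →
    -(if (e00 && e11 && !e01 && !e10) || (e01 && e10 && !e00 && !e11) then 1 else 0 : ℤ) ≤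
    ((if e00 then 1 else 0) + (if e01 then 1 else 0) + ((if e10 then 1 else 0) +
      (if e11 then 1 else 0)) - ((if l0 then 1 else 0) + (if l1 then 1 else 0)) -
      ((if r0 then 1 else 0) + (if r1 then 1 else 0)) + 1 : ℤ) := by
  decide

theorem E_L {j : ℕ} {v : List (Fin 2)} {a b : Fin 2} (h : a :: (v ++ [b]) ∈ F f n (j + 2)) :
    a :: v ∈ F f n (j + 1) := by
  obtain ⟨p, h1, h2, h3, _⟩ := mem_E.1 h
  exact mem_L.2 ⟨p, by omega, h2, h3⟩

theorem E_R {j : ℕ} {v : List (Fin 2)} {a b : Fin 2} (h : a :: (v ++ [b]) ∈ F f n (j + 2)) :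
    v ++ [b] ∈ F f n (j + 1) := by
  obtain ⟨p, h1, _, h3, h4⟩ := mem_E.1 h
  exact mem_R.2 ⟨p + 1, by omega, h3, h4⟩

theorem mult_eq (j : ℕ) (v : List (Fin 2)) : mult f n j v =
    ((if decide (0 :: (v ++ [0]) ∈ F f n (j + 2)) = true then 1 else 0) +
      (if decide (0 :: (v ++ [1]) ∈ F f n (j + 2)) = true then 1 else 0) +
      ((if decide (1 :: (v ++ [0]) ∈ F f n (j + 2)) = true then 1 else 0) +
      (if decide (1 :: (v ++ [1]) ∈ F f n (j + 2)) = true then 1 else 0)) -
      ((if decide (0 :: v ∈ F f n (j + 1)) = true then 1 else 0) +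
        (if decide (1 :: v ∈ F f n (j + 1)) = true then 1 else 0)) -
      ((if decide (v ++ [0] ∈ F f n (j + 1)) = true then 1 else 0) +
        (if decide (v ++ [1] ∈ F f n (j + 1)) = true then 1 else 0)) + 1 : ℤ) := by
  unfold mult
  rw [Fintype.sum_prod_type]
  simp only [Fin.sum_univ_two, decide_eq_true_eq]

theorem mult_le {j : ℕ} {v : List (Fin 2)} (hv : v ∈ F f n j) (hj : j < n) :
    mult f n j v ≤ if Strong f n j v then 1 else 0 := by
  rw [mult_eq]
  have h := bool_upper (decide (v ++ [0] ∈ F f n (j + 1))) (decide (v ++ [1] ∈ F f n (j + 1)))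
    (decide (0 :: v ∈ F f n (j + 1))) (decide (1 :: v ∈ F f n (j + 1)))
    (decide (0 :: (v ++ [0]) ∈ F f n (j + 2))) (decide (0 :: (v ++ [1]) ∈ F f n (j + 2)))
    (decide (1 :: (v ++ [0]) ∈ F f n (j + 2))) (decide (1 :: (v ++ [1]) ∈ F f n (j + 2)))
    (by simp only [decide_eq_true_eq]; exact fun h => ⟨E_L h, E_R h⟩)
    (by simp only [decide_eq_true_eq]; exact fun h => ⟨E_L h, E_R h⟩)
    (by simp only [decide_eq_true_eq]; exact fun h => ⟨E_L h, E_R h⟩)
    (by simp only [decide_eq_true_eq]; exact fun h => ⟨E_L h, E_R h⟩) ?_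
  · refine h.trans (le_of_eq ?_)
    congr 1
    simp only [Bool.and_eq_true, decide_eq_true_eq, Strong, Fin.forall_fin_two, eq_iff_iff]
    tauto
  · simp only [Bool.or_eq_true, decide_eq_true_eq]
    obtain ⟨a, ha, rfl⟩ := mem_F.1 hv
    by_cases h0 : a + j + 1 ≤ n
    · have h1 : W f a j ++ [f (a + j)] ∈ F f n (j + 1) := mem_R.2 ⟨a, h0, rfl, rfl⟩
      have h2 : f (a + j) = 0 ∨ f (a + j) = 1 := by
        generalize f (a + j) = c
        revert c
        decide
      rcases h2 with h2 | h2 <;> rw [h2] at h1 <;> tauto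
    · obtain ⟨p, rfl⟩ : ∃ p, a = p + 1 := ⟨a - 1, by omega⟩
      have h1 : f p :: W f (p + 1) j ∈ F f n (j + 1) := mem_L.2 ⟨p, by omega, rfl, rfl⟩
      have h2 : f p = 0 ∨ f p = 1 := by
        generalize f p = c
        revert c
        decide
      rcases h2 with h2 | h2 <;> rw [h2] at h1 <;> tauto

theorem le_mult {j : ℕ} {v : List (Fin 2)}
    (hR : ∀ b, v ++ [b] ∈ F f n (j + 1) → ∃ a : Fin 2, a :: (v ++ [b]) ∈ F f n (j + 2))
    (hL : ∀ a, a :: v ∈ F f n (j + 1) → ∃ b : Fin 2, a :: (v ++ [b]) ∈ F f n (j + 2)) :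
    -(if Weak f n j v then 1 else 0 : ℤ) ≤ mult f n j v := by
  rw [mult_eq]
  have h := bool_lower (decide (v ++ [0] ∈ F f n (j + 1))) (decide (v ++ [1] ∈ F f n (j + 1)))
    (decide (0 :: v ∈ F f n (j + 1))) (decide (1 :: v ∈ F f n (j + 1)))
    (decide (0 :: (v ++ [0]) ∈ F f n (j + 2))) (decide (0 :: (v ++ [1]) ∈ F f n (j + 2)))
    (decide (1 :: (v ++ [0]) ∈ F f n (j + 2))) (decide (1 :: (v ++ [1]) ∈ F f n (j + 2)))
    (by simp only [decide_eq_true_eq]; exact fun h => ⟨E_L h, E_R h⟩)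
    (by simp only [decide_eq_true_eq]; exact fun h => ⟨E_L h, E_R h⟩)
    (by simp only [decide_eq_true_eq]; exact fun h => ⟨E_L h, E_R h⟩)
    (by simp only [decide_eq_true_eq]; exact fun h => ⟨E_L h, E_R h⟩)
    (by simp only [decide_eq_true_eq]; intro h; have := hR 0 h; rwa [Fin.exists_fin_two] at this)
    (by simp only [decide_eq_true_eq]; intro h; have := hR 1 h; rwa [Fin.exists_fin_two] at this)
    (by simp only [decide_eq_true_eq]; intro h; have := hL 0 h; rwa [Fin.exists_fin_two] at this)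
    (by simp only [decide_eq_true_eq]; intro h; have := hL 1 h; rwa [Fin.exists_fin_two] at this)
  refine le_trans (le_of_eq ?_) h
  congr 2
  simp only [Bool.and_eq_true, Bool.or_eq_true, Bool.not_eq_true', decide_eq_true_eq,
    decide_eq_false_iff_not, Weak, eq_iff_iff]
  tauto

end Pool.Agent.Q289.SW
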