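import Pool.Agent.Q289.SW1

/-!
Special words, unique prefix and suffix, growth of the first difference.
-/

set_option autoImplicit false

namespace Pool.Agent.Q289.SW

open Finset

variable {f : ℕ → Fin 2} {n : ℕ}

theorem fin2 (c : Fin 2) : c = 0 ∨ c = 1 := by
  revert c; decide

/-- the suffix of length `j` occurs only at the end -/
def US (f : ℕ → Fin 2) (n j : ℕ) : Prop := ∀ a, a + j < n → W f a j ≠ W f (n - j) j

/-- the prefix of length `j` occurs only at the beginning -/
def UP (f : ℕ → Fin 2) (n j : ℕ) : Prop := ∀ a, 0 < a → a + j ≤ n → W f a j ≠ W f 0 j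

/-- right special words -/
def RS (f : ℕ → Fin 2) (n j : ℕ) : Finset (List (Fin 2)) :=
  (F f n j).filter fun v => v ++ [0] ∈ F f n (j + 1) ∧ v ++ [1] ∈ F f n (j + 1)

/-- left special words -/
def LS (f : ℕ → Fin 2) (n j : ℕ) : Finset (List (Fin 2)) :=
  (F f n j).filter fun v => 0 :: v ∈ F f n (j + 1) ∧ 1 :: v ∈ F f n (j + 1)

theorem W_sub {a b j k t : ℕ} (h : W f a j = W f b j) (ht : t + k ≤ j) :
    W f (a + t) k = W f (b + t) k := by
  rw [W_eq_iff] at h ⊢
  intro x hx
  have := h (t + x) (by omega)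
  rw [← add_assoc, ← add_assoc] at this
  exact this

theorem US_mono {j j' : ℕ} (h : US f n j) (hj : j ≤ j') (hn : j' ≤ n) : US f n j' := by
  intro a ha hw
  have := W_sub (t := j' - j) (k := j) hw (by omega)
  refine h (a + (j' - j)) (by omega) ?_
  rw [this]
  congr 1
  omega

theorem UP_mono {j j' : ℕ} (h : UP f n j) (hj : j ≤ j') : UP f n j' := by
  intro a ha ha' hw
  have := W_sub (t := 0) (k := j) hw (by omega)
  exact h a ha (by omega) this

theorem mem_RS {j : ℕ} {v : List (Fin 2)} : v ∈ RS f n j ↔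
    ∀ c : Fin 2, ∃ a, a + j < n ∧ W f a j = v ∧ f (a + j) = c := by
  unfold RS
  rw [mem_filter, mem_R, mem_R, Fin.forall_fin_two]
  constructor
  · rintro ⟨_, ⟨a, h1, h2⟩, ⟨b, h3, h4⟩⟩
    exact ⟨⟨a, by omega, h2⟩, ⟨b, by omega, h4⟩⟩
  · rintro ⟨⟨a, h1, h2⟩, ⟨b, h3, h4⟩⟩
    exact ⟨mem_F.2 ⟨a, by omega, h2.1⟩, ⟨a, by omega, h2⟩, ⟨b, by omega, h4⟩⟩

theorem mem_LS {j : ℕ} {v : List (Fin 2)} : v ∈ LS f n j ↔
    ∀ c : Fin 2, ∃ a, a + 1 + j ≤ n ∧ W f (a + 1) j = v ∧ f a = c := by
  unfold LS
  rw [mem_filter, mem_L, mem_L, Fin.forall_fin_two]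
  constructor
  · rintro ⟨_, ⟨a, h1, h2⟩, ⟨b, h3, h4⟩⟩
    exact ⟨⟨a, by omega, h2.2, h2.1⟩, ⟨b, by omega, h4.2, h4.1⟩⟩
  · rintro ⟨⟨a, h1, h2⟩, ⟨b, h3, h4⟩⟩
    exact ⟨mem_F.2 ⟨a + 1, by omega, h2.1⟩, ⟨a, by omega, h2.2, h2.1⟩, ⟨b, by omega, h4.2, h4.1⟩⟩

open Classical in
theorem s_RS {j : ℕ} (hj : j ≤ n) : s f n j = (RS f n j).card - (if US f n j then 1 else 0) := by
  have hs : W f (n - j) j ∈ F f n j := mem_F.2 ⟨n - j, by omega, rfl⟩
  have h1 : ∀ v ∈ F f n j, ((∑ b : Fin 2, if v ++ [b] ∈ F f n (j + 1) then (1 : ℤ) else 0) - 1) =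
      (if v ++ [0] ∈ F f n (j + 1) ∧ v ++ [1] ∈ F f n (j + 1) then (1 : ℤ) else 0) -
      (if v = W f (n - j) j then (if US f n j then 1 else 0) else 0) := by
    intro v hv
    rw [Fin.sum_univ_two]
    by_cases h0 : v ++ [0] ∈ F f n (j + 1) <;> by_cases h1 : v ++ [1] ∈ F f n (j + 1)
    · have : ¬ (v = W f (n - j) j ∧ US f n j) := by
        rintro ⟨h2, h3⟩
        obtain ⟨a, ha, ha', _⟩ := mem_R.1 h0
        exact h3 a (by omega) (by rw [ha', h2])
      by_cases h2 : v = W f (n - j) j <;> by_cases h3 : US f n j <;> simp_all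
    · have : ¬ (v = W f (n - j) j ∧ US f n j) := by
        rintro ⟨h2, h3⟩
        obtain ⟨a, ha, ha', _⟩ := mem_R.1 h0
        exact h3 a (by omega) (by rw [ha', h2])
      by_cases h2 : v = W f (n - j) j <;> by_cases h3 : US f n j <;> simp_all
    · have : ¬ (v = W f (n - j) j ∧ US f n j) := by
        rintro ⟨h2, h3⟩
        obtain ⟨a, ha, ha', _⟩ := mem_R.1 h1
        exact h3 a (by omega) (by rw [ha', h2])
      by_cases h2 : v = W f (n - j) j <;> by_cases h3 : US f n j <;> simp_all
    · have h4 : ∀ a, a + j < n → W f a j ≠ v := by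
        intro a ha h
        have h5 : v ++ [f (a + j)] ∈ F f n (j + 1) := mem_R.2 ⟨a, by omega, h, rfl⟩
        rcases fin2 (f (a + j)) with h6 | h6 <;> rw [h6] at h5 <;> tauto
      obtain ⟨a, ha, hav⟩ := mem_F.1 hv
      have h5 : a = n - j := by
        by_contra h
        exact h4 a (by omega) hav
      have h6 : v = W f (n - j) j := by rw [← hav, h5]
      have h7 : US f n j := by
        intro b hb h
        exact h4 b hb (by rw [h, h6])
      rw [if_neg h0, if_neg h1, if_neg (by tauto), if_pos h6, if_pos h7]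
      norm_num
  rw [s_eq, sum_congr rfl h1, sum_sub_distrib, Finset.sum_ite_eq' , if_pos hs]
  congr 1
  unfold RS
  rw [card_filter]
  push_cast
  rfl

open Classical in
theorem s_LS {j : ℕ} (hj : j ≤ n) : s f n j = (LS f n j).card - (if UP f n j then 1 else 0) := by
  have hs : W f 0 j ∈ F f n j := mem_F.2 ⟨0, by omega, rfl⟩
  have h1 : ∀ v ∈ F f n j, ((∑ b : Fin 2, if b :: v ∈ F f n (j + 1) then (1 : ℤ) else 0) - 1) =
      (if 0 :: v ∈ F f n (j + 1) ∧ 1 :: v ∈ F f n (j + 1) then (1 : ℤ) else 0) -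
      (if v = W f 0 j then (if UP f n j then 1 else 0) else 0) := by
    intro v hv
    rw [Fin.sum_univ_two]
    by_cases h0 : 0 :: v ∈ F f n (j + 1) <;> by_cases h1 : 1 :: v ∈ F f n (j + 1)
    · have : ¬ (v = W f 0 j ∧ UP f n j) := by
        rintro ⟨h2, h3⟩
        obtain ⟨a, ha, _, ha'⟩ := mem_L.1 h0
        exact h3 (a + 1) (by omega) (by omega) (by rw [ha', h2])
      by_cases h2 : v = W f 0 j <;> by_cases h3 : UP f n j <;> simp_all
    · have : ¬ (v = W f 0 j ∧ UP f n j) := by
        rintro ⟨h2, h3⟩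
        obtain ⟨a, ha, _, ha'⟩ := mem_L.1 h0
        exact h3 (a + 1) (by omega) (by omega) (by rw [ha', h2])
      by_cases h2 : v = W f 0 j <;> by_cases h3 : UP f n j <;> simp_all
    · have : ¬ (v = W f 0 j ∧ UP f n j) := by
        rintro ⟨h2, h3⟩
        obtain ⟨a, ha, _, ha'⟩ := mem_L.1 h1
        exact h3 (a + 1) (by omega) (by omega) (by rw [ha', h2])
      by_cases h2 : v = W f 0 j <;> by_cases h3 : UP f n j <;> simp_all
    · have h4 : ∀ a, a + 1 + j ≤ n → W f (a + 1) j ≠ v := by
        intro a ha h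
        have h5 : f a :: v ∈ F f n (j + 1) := mem_L.2 ⟨a, by omega, rfl, h⟩
        rcases fin2 (f a) with h6 | h6 <;> rw [h6] at h5 <;> tauto
      obtain ⟨a, ha, hav⟩ := mem_F.1 hv
      have h5 : a = 0 := by
        by_contra h
        obtain ⟨a, rfl⟩ : ∃ b, a = b + 1 := ⟨a - 1, by omega⟩
        exact h4 a (by omega) hav
      have h6 : v = W f 0 j := by rw [← hav, h5]
      have h7 : UP f n j := by
        intro b hb hb' h
        obtain ⟨b, rfl⟩ : ∃ c, b = c + 1 := ⟨b - 1, by omega⟩
        exact h4 b hb' (by rw [h, h6])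
      rw [if_neg h0, if_neg h1, if_neg (by tauto), if_pos h6, if_pos h7]
      norm_num
  rw [s_eq', sum_congr rfl h1, sum_sub_distrib, Finset.sum_ite_eq' , if_pos hs]
  congr 1
  unfold LS
  rw [card_filter]
  push_cast
  rfl

/-! ### Boundary words -/

/-- `x` has an occurrence, followed by a letter, such that the word extended by this letter does
not occur elsewhere -/
def RB (f : ℕ → Fin 2) (n i : ℕ) (x : List (Fin 2)) : Prop :=
  ∃ e, e + i < n ∧ W f e i = x ∧
    ∀ a, a + i < n → W f a i = x → f (a + i) = f (e + i) → a = e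

/-- mirror image of `RB` -/
def LB (f : ℕ → Fin 2) (n i : ℕ) (x : List (Fin 2)) : Prop :=
  ∃ e, e + 1 + i ≤ n ∧ W f (e + 1) i = x ∧
    ∀ a, a + 1 + i ≤ n → W f (a + 1) i = x → f a = f e → a = e

theorem exists_RB {j : ℕ} (hU : US f n j) (hne : (RS f n j).Nonempty) :
    ∃ x ∈ RS f n j, RB f n j x := by
  classical
  obtain ⟨x, hx⟩ := hne
  obtain ⟨a0, ha0, hx0, _⟩ := mem_RS.1 hx 0
  have hP : ((range n).filter fun e => e + j < n ∧ W f e j ∈ RS f n j).Nonempty :=
    ⟨a0, by rw [mem_filter, mem_range]; exact ⟨by omega, ha0, by rw [hx0]; exact hx⟩⟩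
  obtain ⟨e, he, hmax⟩ := exists_max_image _ id hP
  rw [mem_filter] at he
  refine ⟨W f e j, he.2.2, e, he.2.1, rfl, ?_⟩
  intro a ha haw haf
  have hle : a ≤ e := by
    have := hmax a (by rw [mem_filter, mem_range]; exact ⟨by omega, ha, by rw [haw]; exact he.2.2⟩)
    simpa using this
  by_contra hne
  have hlt : a < e := by omega
  have key : ∀ t, e + 1 + t + j ≤ n → W f (a + 1 + t) j = W f (e + 1 + t) j := by
    intro t
    induction t with
    | zero =>
      intro _
      have h1 : W f a (j + 1) = W f e (j + 1) := by rw [W_right, W_right, haw, haf]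
      exact W_sub (t := 1) h1 (by omega)
    | succ t ih =>
      intro ht
      have h1 := ih (by omega)
      have h2 : f (a + 1 + t + j) = f (e + 1 + t + j) := by
        by_contra h
        have h3 : W f (e + 1 + t) j ∈ RS f n j := by
          rw [mem_RS]
          intro c
          have : c = f (a + 1 + t + j) ∨ c = f (e + 1 + t + j) := by
            generalize f (a + 1 + t + j) = x at *
            generalize f (e + 1 + t + j) = y at *
            revert c x y
            decide
          rcases this with rfl | rfl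
          · exact ⟨a + 1 + t, by omega, h1, rfl⟩
          · exact ⟨e + 1 + t, by omega, rfl, rfl⟩
        have := hmax (e + 1 + t) (by
          rw [mem_filter, mem_range]; exact ⟨by omega, by omega, h3⟩)
        simp at this
        omega
      have h3 : W f (a + 1 + t) (j + 1) = W f (e + 1 + t) (j + 1) := by
        rw [W_right, W_right, h1, h2]
      exact W_sub (t := 1) h3 (by omega)
  have h1 := key (n - j - e - 1) (by omega)
  refine hU (a + 1 + (n - j - e - 1)) (by omega) ?_
  rw [h1]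
  congr 1
  omega

theorem exists_LB {j : ℕ} (hU : UP f n j) (hne : (LS f n j).Nonempty) :
    ∃ x ∈ LS f n j, LB f n j x := by
  classical
  obtain ⟨x, hx⟩ := hne
  obtain ⟨a0, ha0, hx0, _⟩ := mem_LS.1 hx 0
  have hP : ((range n).filter fun e => e + 1 + j ≤ n ∧ W f (e + 1) j ∈ LS f n j).Nonempty :=
    ⟨a0, by rw [mem_filter, mem_range]; exact ⟨by omega, ha0, by rw [hx0]; exact hx⟩⟩
  obtain ⟨e, he, hmin⟩ := exists_min_image _ id hP
  rw [mem_filter] at he
  refine ⟨W f (e + 1) j, he.2.2, e, he.2.1, rfl, ?_⟩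
  intro a ha haw haf
  have hle : e ≤ a := by
    have := hmin a (by rw [mem_filter, mem_range]; exact ⟨by omega, ha, by rw [haw]; exact he.2.2⟩)
    simpa using this
  by_contra hne
  have hlt : e < a := by omega
  have key : ∀ t, t ≤ e → W f (a - t) j = W f (e - t) j := by
    intro t
    induction t with
    | zero =>
      intro _
      have h1 : W f a (j + 1) = W f e (j + 1) := by rw [W_left, W_left, haw, haf]
      exact W_sub (t := 0) h1 (by omega)
    | succ t ih =>
      intro ht
      have h1 := ih (by omega)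
      have ea : a - t = a - (t + 1) + 1 := by omega
      have ee : e - t = e - (t + 1) + 1 := by omega
      have h2 : f (a - (t + 1)) = f (e - (t + 1)) := by
        by_contra h
        have h3 : W f (e - (t + 1) + 1) j ∈ LS f n j := by
          rw [mem_LS]
          intro c
          have : c = f (a - (t + 1)) ∨ c = f (e - (t + 1)) := by
            generalize f (a - (t + 1)) = x at *
            generalize f (e - (t + 1)) = y at *
            revert c x y
            decide
          rcases this with rfl | rfl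
          · exact ⟨a - (t + 1), by omega, by rw [← ea, h1, ee], rfl⟩
          · exact ⟨e - (t + 1), by omega, rfl, rfl⟩
        have := hmin (e - (t + 1)) (by
          rw [mem_filter, mem_range]; exact ⟨by omega, by omega, h3⟩)
        simp at this
        omega
      have h3 : W f (a - (t + 1)) (j + 1) = W f (e - (t + 1)) (j + 1) := by
        rw [W_left, W_left, h2, ← ea, ← ee, h1]
      exact W_sub (t := 0) h3 (by omega)
  have h1 := key e le_rfl
  refine hU (a - e) (by omega) (by omega) ?_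
  rw [h1]
  congr 1
  omega

theorem not_strong_RB {j : ℕ} {x : List (Fin 2)} (h : RB f n j x) : ¬ Strong f n j x := by
  obtain ⟨e, he, hx, hu⟩ := h
  intro hs
  obtain ⟨p, hp1, hp2, hp3, hp4⟩ := mem_E.1 (hs 0 (f (e + j)))
  obtain ⟨q, hq1, hq2, hq3, hq4⟩ := mem_E.1 (hs 1 (f (e + j)))
  have h1 := hu (p + 1) (by omega) hp3 hp4
  have h2 := hu (q + 1) (by omega) hq3 hq4
  have h3 : p = q := by omega
  rw [h3, hq2] at hp2
  exact absurd hp2 (by decide)

theorem not_strong_LB {j : ℕ} {x : List (Fin 2)} (h : LB f n j x) : ¬ Strong f n j x := by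
  obtain ⟨e, he, hx, hu⟩ := h
  intro hs
  obtain ⟨p, hp1, hp2, hp3, hp4⟩ := mem_E.1 (hs (f e) 0)
  obtain ⟨q, hq1, hq2, hq3, hq4⟩ := mem_E.1 (hs (f e) 1)
  have h1 := hu p (by omega) hp3 hp2
  have h2 := hu q (by omega) hq3 hq2
  have h3 : p = q := by omega
  rw [h3, hq4] at hp4
  exact absurd hp4 (by decide)

theorem strong_RS {j : ℕ} {v : List (Fin 2)} (h : Strong f n j v) : v ∈ RS f n j := by
  rw [mem_RS]
  intro c
  obtain ⟨p, hp1, hp2, hp3, hp4⟩ := mem_E.1 (h 0 c)
  exact ⟨p + 1, by omega, hp3, hp4⟩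

theorem strong_LS {j : ℕ} {v : List (Fin 2)} (h : Strong f n j v) : v ∈ LS f n j := by
  rw [mem_LS]
  intro c
  obtain ⟨p, hp1, hp2, hp3, hp4⟩ := mem_E.1 (h c 0)
  exact ⟨p, by omega, hp3, hp2⟩

/-! ### Consequences for the first difference -/

theorem s_ge {j : ℕ} (hj : j ≤ n) : -1 ≤ s f n j := by
  classical
  rw [s_RS hj]
  split_ifs <;> omega

theorem RS_succ_empty {j : ℕ} (h : RS f n j = ∅) : RS f n (j + 1) = ∅ := by
  rw [Finset.eq_empty_iff_forall_notMem] at h ⊢
  intro u hu
  rw [mem_RS] at hu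
  obtain ⟨a, ha, hau, _⟩ := hu 0
  refine h (W f (a + 1) j) (mem_RS.2 fun c => ?_)
  obtain ⟨b, hb, hbu, hbc⟩ := hu c
  refine ⟨b + 1, by omega, ?_, by rw [← hbc]; congr 1; omega⟩
  exact W_sub (t := 1) (hbu.trans hau.symm) (by omega)

theorem s_neg {j : ℕ} (hj : j + 1 ≤ n) (h : s f n j = -1) : s f n (j + 1) = -1 := by
  classical
  rw [s_RS (by omega)] at h
  have hU : US f n j := by
    by_contra hU
    rw [if_neg hU] at h
    omega
  rw [if_pos hU] at h
  have h0 : RS f n j = ∅ := by
    rw [← card_eq_zero]; omega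
  rw [s_RS hj, if_pos (US_mono hU (by omega) hj), RS_succ_empty h0]
  simp

theorem s_last : s f n n = -1 := by
  unfold s F
  simp

theorem s_grow {j : ℕ} (hj : j < n) (h : 0 ≤ s f n j) : s f n (j + 1) ≤ 2 * s f n j := by
  classical
  have h1 := s_succ_sub (f := f) (n := n) j
  have h2 : ∑ v ∈ F f n j, mult f n j v ≤
      ∑ v ∈ F f n j, (if Strong f n j v then (1 : ℤ) else 0) :=
    sum_le_sum fun v hv => mult_le hv hj
  have h3 : ∑ v ∈ F f n j, (if Strong f n j v then (1 : ℤ) else 0) =
      (((F f n j).filter fun v => Strong f n j v).card : ℤ) := by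
    rw [card_filter]; push_cast; rfl
  have h4 : (F f n j).filter (fun v => Strong f n j v) ⊆ RS f n j := fun v hv =>
    strong_RS (mem_filter.1 hv).2
  have h5 : (((F f n j).filter fun v => Strong f n j v).card : ℤ) ≤ s f n j := by
    rw [s_RS hj.le] at h ⊢
    by_cases hU : US f n j
    · rw [if_pos hU] at h ⊢
      have hne : (RS f n j).Nonempty := by
        rw [← card_pos]; omega
      obtain ⟨x, hx, hB⟩ := exists_RB hU hne
      have h6 : (F f n j).filter (fun v => Strong f n j v) ⊆ (RS f n j).erase x := by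
        intro v hv
        rw [mem_erase]
        refine ⟨?_, h4 hv⟩
        rintro rfl
        exact not_strong_RB hB (mem_filter.1 hv).2
      have h7 := card_le_card h6
      rw [card_erase_of_mem hx] at h7
      omega
    · rw [if_neg hU]
      have := card_le_card h4
      omega
  omega

end Pool.Agent.Q289.SW
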