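import Pool.Agent.Q289.SW2

/-!
Weak bispecial words near an event of the first difference.
-/

set_option autoImplicit false

namespace Pool.Agent.Q289.SW

open Finset

variable {f : ℕ → Fin 2} {n : ℕ}

/-- positional form of `Weak` -/
def WK (f : ℕ → Fin 2) (n k : ℕ) (z : List (Fin 2)) : Prop :=
  (∀ c : Fin 2, ∃ q, q + 1 + k < n ∧ W f (q + 1) k = z ∧ f (q + 1 + k) = c) ∧
  (∀ c : Fin 2, ∃ q, q + 1 + k < n ∧ W f (q + 1) k = z ∧ f q = c) ∧
  (∀ q q', q + 1 + k < n → q' + 1 + k < n → W f (q + 1) k = z → W f (q' + 1) k = z →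
    (f q = f q' ↔ f (q + 1 + k) = f (q' + 1 + k)))

theorem weak_WK {k : ℕ} {z : List (Fin 2)} (h : Weak f n k z) : WK f n k z := by
  have hE : ∀ q, q + 1 + k < n → W f (q + 1) k = z →
      f q :: (z ++ [f (q + 1 + k)]) ∈ F f n (k + 2) := fun q hq hz =>
    mem_E.2 ⟨q, by omega, rfl, hz, rfl⟩
  have h3 : ∀ q q', q + 1 + k < n → q' + 1 + k < n → W f (q + 1) k = z → W f (q' + 1) k = z →
    (f q = f q' ↔ f (q + 1 + k) = f (q' + 1 + k)) := by
    intro q q' hq hq' hz hz'
    have h1 := hE q hq hz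
    have h2 := hE q' hq' hz'
    rcases h with ⟨_, _, h5, h6⟩ | ⟨_, _, h5, h6⟩ <;>
    rcases fin2 (f q) with ha | ha <;> rcases fin2 (f q') with hb | hb <;>
    rcases fin2 (f (q + 1 + k)) with hc | hc <;> rcases fin2 (f (q' + 1 + k)) with hd | hd <;>
    rw [ha, hc] at h1 <;> rw [hb, hd] at h2 <;> rw [ha, hb, hc, hd] <;>
    first
      | exact absurd h1 h5
      | exact absurd h1 h6
      | exact absurd h2 h5
      | exact absurd h2 h6
      | decide
  rcases h with ⟨h1, h2, _, _⟩ | ⟨h1, h2, _, _⟩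
  · obtain ⟨p, hp1, hp2, hp3, hp4⟩ := mem_E.1 h1
    obtain ⟨q, hq1, hq2, hq3, hq4⟩ := mem_E.1 h2
    refine ⟨?_, ?_, h3⟩
    · intro c
      rcases fin2 c with rfl | rfl
      · exact ⟨p, by omega, hp3, hp4⟩
      · exact ⟨q, by omega, hq3, hq4⟩
    · intro c
      rcases fin2 c with rfl | rfl
      · exact ⟨p, by omega, hp3, hp2⟩
      · exact ⟨q, by omega, hq3, hq2⟩
  · obtain ⟨p, hp1, hp2, hp3, hp4⟩ := mem_E.1 h1
    obtain ⟨q, hq1, hq2, hq3, hq4⟩ := mem_E.1 h2
    refine ⟨?_, ?_, h3⟩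
    · intro c
      rcases fin2 c with rfl | rfl
      · exact ⟨q, by omega, hq3, hq4⟩
      · exact ⟨p, by omega, hp3, hp4⟩
    · intro c
      rcases fin2 c with rfl | rfl
      · exact ⟨p, by omega, hp3, hp2⟩
      · exact ⟨q, by omega, hq3, hq2⟩

theorem other (c : Fin 2) : ∃ d : Fin 2, d ≠ c := by
  revert c; decide

/-- class A: a common suffix `x` with a unique extension -/
theorem classA {i k k' p p' : ℕ} {x : List (Fin 2)} (hik : i ≤ k) (hkk : k < k')
    (hx : RB f n i x) (hz : WK f n k (W f p k)) (hz' : WK f n k' (W f p' k'))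
    (hs : W f (p + (k - i)) i = x) (hs' : W f (p' + (k' - i)) i = x) : False := by
  obtain ⟨e, he, hex, hu⟩ := hx
  obtain ⟨q, hq1, hq2, hq3⟩ := hz.1 (f (e + i))
  obtain ⟨q', hq1', hq2', hq3'⟩ := hz'.1 (f (e + i))
  have h1 : q + 1 + (k - i) = e := by
    apply hu _ (by omega)
    · rw [W_sub hq2 (by omega), hs]
    · rw [← hq3]; congr 1; omega
  have h2 : q' + 1 + (k' - i) = e := by
    apply hu _ (by omega)
    · rw [W_sub hq2' (by omega), hs']
    · rw [← hq3']; congr 1; omega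
  obtain ⟨c, hc⟩ := other (f (e + i))
  obtain ⟨r, hr1, hr2, hr3⟩ := hz'.1 c
  have h3 : W f (r + 1) k' = W f (q' + 1) k' := by rw [hr2, hq2']
  have h4 : W f (r + (k' - k) + 1) k = W f (q' + (k' - k) + 1) k := by
    have := W_sub (t := k' - k) (k := k) h3 (by omega)
    rw [show r + (k' - k) + 1 = r + 1 + (k' - k) by omega,
      show q' + (k' - k) + 1 = q' + 1 + (k' - k) by omega]
    exact this
  have h5 : q' + (k' - k) = q := by omega
  rw [h5] at h4
  have h6 : f (r + (k' - k)) = f (q' + (k' - k)) := by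
    rw [W_eq_iff] at h3
    have := h3 (k' - k - 1) (by omega)
    rw [show r + 1 + (k' - k - 1) = r + (k' - k) by omega,
      show q' + 1 + (k' - k - 1) = q' + (k' - k) by omega] at this
    exact this
  rw [h5] at h6
  have h7 := (hz.2.2 (r + (k' - k)) q (by omega) hq1 (by rw [h4, hq2]) hq2).1 h6
  rw [hq3, show r + (k' - k) + 1 + k = r + 1 + k' by omega, hr3] at h7
  exact hc h7

/-- class B: a common prefix `x` with a unique extension -/
theorem classB {i k k' p p' : ℕ} {x : List (Fin 2)} (hik : i ≤ k) (hkk : k < k')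
    (hx : LB f n i x) (hz : WK f n k (W f p k)) (hz' : WK f n k' (W f p' k'))
    (hs : W f p i = x) (hs' : W f p' i = x) : False := by
  obtain ⟨e, he, hex, hu⟩ := hx
  obtain ⟨q, hq1, hq2, hq3⟩ := hz.2.1 (f e)
  obtain ⟨q', hq1', hq2', hq3'⟩ := hz'.2.1 (f e)
  have h1 : q = e := by
    apply hu _ (by omega) _ hq3
    have := W_sub (t := 0) (k := i) hq2 (by omega)
    rw [add_zero, add_zero] at this
    rw [this, hs]
  have h2 : q' = e := by
    apply hu _ (by omega) _ hq3'
    have := W_sub (t := 0) (k := i) hq2' (by omega)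
    rw [add_zero, add_zero] at this
    rw [this, hs']
  subst h1
  subst h2
  obtain ⟨c, hc⟩ := other (f q')
  obtain ⟨r, hr1, hr2, hr3⟩ := hz'.2.1 c
  have h3 : W f (r + 1) k' = W f (q' + 1) k' := by rw [hr2, hq2']
  have h4 : W f (r + 1) k = W f (q' + 1) k := W_sub (t := 0) h3 (by omega)
  have h6 : f (r + 1 + k) = f (q' + 1 + k) := by
    rw [W_eq_iff] at h3
    exact h3 k hkk
  have h7 := (hz.2.2 r q' (by omega) hq1 (by rw [h4, hq2]) hq2).2 h6
  rw [hr3] at h7
  exact hc h7

/-- class C: the same word `v` is prefix and suffix -/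
theorem classC {i k k' p p' : ℕ} {v : List (Fin 2)} (hik : i ≤ k) (hkk : k < k')
    (hkk' : (k - i) + (k' - i) ≤ i) (hz : WK f n k (W f p k)) (hz' : WK f n k' (W f p' k'))
    (h1 : W f p i = v) (h2 : W f (p + (k - i)) i = v) (h3 : W f p' i = v)
    (h4 : W f (p' + (k' - i)) i = v) : False := by
  have e1 : ∀ x < i, f (p' + x) = f (p + x) := W_eq_iff.1 (h3.trans h1.symm)
  have e2 : ∀ x < i, f (p + (k - i) + x) = f (p + x) := W_eq_iff.1 (h2.trans h1.symm)
  have e3 : ∀ x < i, f (p' + (k' - i) + x) = f (p' + x) := W_eq_iff.1 (h4.trans h3.symm)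
  have key : W f p' k = W f p k := by
    rw [W_eq_iff]
    intro x hx
    by_cases hxi : x < i
    · exact e1 x hxi
    · obtain ⟨t, ht⟩ : ∃ t, t = k - i := ⟨_, rfl⟩
      obtain ⟨t', ht'⟩ : ∃ t', t' = k' - i := ⟨_, rfl⟩
      rw [← ht] at e2 hkk'
      rw [← ht'] at e3 hkk'
      have a1 := e2 (x - t) (by omega)
      have a2 := e3 (x - t') (by omega)
      have a3 := e1 (x - t') (by omega)
      have a4 := e2 (x - t - t') (by omega)
      have a5 := e1 (x - t) (by omega)
      have a6 := e3 (x - t - t') (by omega)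
      have a7 := e1 (x - t - t') (by omega)
      rw [show p + t + (x - t) = p + x by omega] at a1
      rw [show p' + t' + (x - t') = p' + x by omega] at a2
      rw [show p + t + (x - t - t') = p + (x - t') by omega] at a4
      rw [show p' + t' + (x - t - t') = p' + (x - t) by omega] at a6
      rw [a2, a3, a4, a1, ← a5, a6, a7]
  obtain ⟨q, hq1, hq2, hq3⟩ := hz'.2.1 0
  obtain ⟨r, hr1, hr2, hr3⟩ := hz'.2.1 1
  have g1 : W f (q + 1) k = W f p k := (W_sub (t := 0) hq2 (by omega)).trans key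
  have g2 : W f (r + 1) k = W f p k := (W_sub (t := 0) hr2 (by omega)).trans key
  have g3 : f (q + 1 + k) = f (r + 1 + k) := W_eq_iff.1 (hq2.trans hr2.symm) k hkk
  have g4 := (hz.2.2 q r (by omega) (by omega) g1 g2).2 g3
  rw [hq3, hr3] at g4
  exact absurd g4 (by decide)

/-- classification of the special words at an event -/
theorem event_class {i : ℕ} (hi : i < n) (h1 : s f n i = 1) (h2 : s f n (i + 1) = 2) :
    ∃ v y y' : List (Fin 2), (∀ x ∈ RS f n i, x = v ∨ (x = y' ∧ RB f n i y')) ∧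
      (∀ x ∈ LS f n i, x = v ∨ (x = y ∧ LB f n i y)) := by
  classical
  have h3 := s_succ_sub (f := f) (n := n) i
  rw [h1, h2] at h3
  obtain ⟨v, hv, hvm⟩ : ∃ v ∈ F f n i, 0 < mult f n i v := by
    by_contra h
    push Not at h
    have := sum_nonpos h
    omega
  have hvs : Strong f n i v := by
    by_contra h
    have := mult_le hv hi
    rw [if_neg h] at this
    omega
  have hR : ∃ y', ∀ x ∈ RS f n i, x = v ∨ (x = y' ∧ RB f n i y') := by
    have hc := s_RS (f := f) (n := n) hi.le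
    rw [h1] at hc
    by_cases hU : US f n i
    · rw [if_pos hU] at hc
      obtain ⟨y, hy, hyB⟩ := exists_RB hU ⟨v, strong_RS hvs⟩
      refine ⟨y, fun x hx => ?_⟩
      have hne : v ≠ y := by
        rintro rfl
        exact not_strong_RB hyB hvs
      have : ({v, y} : Finset (List (Fin 2))) = RS f n i := by
        apply eq_of_subset_of_card_le
        · intro u hu
          rw [mem_insert, mem_singleton] at hu
          rcases hu with rfl | rfl
          · exact strong_RS hvs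
          · exact hy
        · rw [card_pair hne]; omega
      rw [← this, mem_insert, mem_singleton] at hx
      rcases hx with rfl | rfl
      · exact Or.inl rfl
      · exact Or.inr ⟨rfl, hyB⟩
    · rw [if_neg hU] at hc
      refine ⟨v, fun x hx => Or.inl ?_⟩
      have : (RS f n i).card ≤ 1 := by omega
      exact card_le_one.1 this x hx v (strong_RS hvs)
  have hL : ∃ y, ∀ x ∈ LS f n i, x = v ∨ (x = y ∧ LB f n i y) := by
    have hc := s_LS (f := f) (n := n) hi.le
    rw [h1] at hc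
    by_cases hU : UP f n i
    · rw [if_pos hU] at hc
      obtain ⟨y, hy, hyB⟩ := exists_LB hU ⟨v, strong_LS hvs⟩
      refine ⟨y, fun x hx => ?_⟩
      have hne : v ≠ y := by
        rintro rfl
        exact not_strong_LB hyB hvs
      have : ({v, y} : Finset (List (Fin 2))) = LS f n i := by
        apply eq_of_subset_of_card_le
        · intro u hu
          rw [mem_insert, mem_singleton] at hu
          rcases hu with rfl | rfl
          · exact strong_LS hvs
          · exact hy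
        · rw [card_pair hne]; omega
      rw [← this, mem_insert, mem_singleton] at hx
      rcases hx with rfl | rfl
      · exact Or.inl rfl
      · exact Or.inr ⟨rfl, hyB⟩
    · rw [if_neg hU] at hc
      refine ⟨v, fun x hx => Or.inl ?_⟩
      have : (LS f n i).card ≤ 1 := by omega
      exact card_le_one.1 this x hx v (strong_LS hvs)
  obtain ⟨y', hy'⟩ := hR
  obtain ⟨y, hy⟩ := hL
  exact ⟨v, y, y', hy', hy⟩

theorem WK_pos {k : ℕ} {z : List (Fin 2)} (h : WK f n k z) : ∃ p, z = W f p k := by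
  obtain ⟨q, _, h2, _⟩ := h.1 0
  exact ⟨q + 1, h2.symm⟩

theorem WK_RS {i k p : ℕ} (hik : i ≤ k) (h : WK f n k (W f p k)) :
    W f (p + (k - i)) i ∈ RS f n i := by
  rw [mem_RS]
  intro c
  obtain ⟨q, h1, h2, h3⟩ := h.1 c
  exact ⟨q + 1 + (k - i), by omega, W_sub h2 (by omega), by rw [← h3]; congr 1; omega⟩

theorem WK_LS {i k p : ℕ} (hik : i ≤ k) (h : WK f n k (W f p k)) : W f p i ∈ LS f n i := by
  rw [mem_LS]
  intro c
  obtain ⟨q, h1, h2, h3⟩ := h.2.1 c
  exact ⟨q, by omega, W_sub (t := 0) h2 (by omega), h3⟩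

/-- no four weak words of different lengths near an event -/
theorem window {i k1 k2 k3 k4 : ℕ} (hi : i < n) (h1 : s f n i = 1) (h2 : s f n (i + 1) = 2)
    (hk0 : i ≤ k1) (hk1 : k1 < k2) (hk2 : k2 < k3) (hk3 : k3 < k4) (hk4 : 2 * k4 ≤ 3 * i)
    (hz1 : ∃ z, WK f n k1 z) (hz2 : ∃ z, WK f n k2 z) (hz3 : ∃ z, WK f n k3 z)
    (hz4 : ∃ z, WK f n k4 z) : False := by
  obtain ⟨v, y, y', hR, hL⟩ := event_class hi h1 h2
  have hcls : ∀ k, i ≤ k → (∃ z, WK f n k z) → ∃ p, WK f n k (W f p k) ∧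
      ((W f (p + (k - i)) i = y' ∧ RB f n i y') ∨ (W f p i = y ∧ LB f n i y) ∨
        (W f p i = v ∧ W f (p + (k - i)) i = v)) := by
    intro k hk ⟨z, hz⟩
    obtain ⟨p, rfl⟩ := WK_pos hz
    refine ⟨p, hz, ?_⟩
    rcases hR _ (WK_RS hk hz) with h | h
    · rcases hL _ (WK_LS hk hz) with h' | h'
      · exact Or.inr (Or.inr ⟨h', h⟩)
      · exact Or.inr (Or.inl h')
    · exact Or.inl h
  obtain ⟨p1, w1, c1⟩ := hcls k1 hk0 hz1
  obtain ⟨p2, w2, c2⟩ := hcls k2 (by omega) hz2
  obtain ⟨p3, w3, c3⟩ := hcls k3 (by omega) hz3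
  obtain ⟨p4, w4, c4⟩ := hcls k4 (by omega) hz4
  have A : ∀ k k' p p', i ≤ k → k < k' → WK f n k (W f p k) → WK f n k' (W f p' k') →
      (W f (p + (k - i)) i = y' ∧ RB f n i y') → (W f (p' + (k' - i)) i = y' ∧ RB f n i y') →
      False := fun k k' p p' hk hkk hz hz' a b => classA hk hkk a.2 hz hz' a.1 b.1
  have B : ∀ k k' p p', i ≤ k → k < k' → WK f n k (W f p k) → WK f n k' (W f p' k') →
      (W f p i = y ∧ LB f n i y) → (W f p' i = y ∧ LB f n i y) →
      False := fun k k' p p' hk hkk hz hz' a b => classB hk hkk a.2 hz hz' a.1 b.1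
  have C : ∀ k k' p p', i ≤ k → k < k' → k' ≤ k4 → WK f n k (W f p k) → WK f n k' (W f p' k') →
      (W f p i = v ∧ W f (p + (k - i)) i = v) → (W f p' i = v ∧ W f (p' + (k' - i)) i = v) →
      False := fun k k' p p' hk hkk hk' hz hz' a b =>
        classC hk hkk (by omega) hz hz' a.1 a.2 b.1 b.2
  rcases c1 with c1 | c1 | c1 <;> rcases c2 with c2 | c2 | c2 <;> rcases c3 with c3 | c3 | c3 <;>
  rcases c4 with c4 | c4 | c4 <;>
  first
    | exact A k1 k2 p1 p2 (by omega) (by omega) w1 w2 c1 c2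
    | exact A k1 k3 p1 p3 (by omega) (by omega) w1 w3 c1 c3
    | exact A k1 k4 p1 p4 (by omega) (by omega) w1 w4 c1 c4
    | exact A k2 k3 p2 p3 (by omega) (by omega) w2 w3 c2 c3
    | exact A k2 k4 p2 p4 (by omega) (by omega) w2 w4 c2 c4
    | exact A k3 k4 p3 p4 (by omega) (by omega) w3 w4 c3 c4
    | exact B k1 k2 p1 p2 (by omega) (by omega) w1 w2 c1 c2
    | exact B k1 k3 p1 p3 (by omega) (by omega) w1 w3 c1 c3
    | exact B k1 k4 p1 p4 (by omega) (by omega) w1 w4 c1 c4
    | exact B k2 k3 p2 p3 (by omega) (by omega) w2 w3 c2 c3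
    | exact B k2 k4 p2 p4 (by omega) (by omega) w2 w4 c2 c4
    | exact B k3 k4 p3 p4 (by omega) (by omega) w3 w4 c3 c4
    | exact C k1 k2 p1 p2 (by omega) (by omega) (by omega) w1 w2 c1 c2
    | exact C k1 k3 p1 p3 (by omega) (by omega) (by omega) w1 w3 c1 c3
    | exact C k1 k4 p1 p4 (by omega) (by omega) (by omega) w1 w4 c1 c4
    | exact C k2 k3 p2 p3 (by omega) (by omega) (by omega) w2 w3 c2 c3
    | exact C k2 k4 p2 p4 (by omega) (by omega) (by omega) w2 w4 c2 c4
    | exact C k3 k4 p3 p4 (by omega) (by omega) (by omega) w3 w4 c3 c4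

/-! ### Weak words between events -/

/-- a word of negative multiplicity at a level where the status of the unique prefix and suffix
does not change is weak -/
theorem weak_of_neg {k : ℕ} (hk : k < n) {v : List (Fin 2)} (hv : v ∈ F f n k)
    (hm : mult f n k v < 0) (hU : US f n (k + 1) → US f n k) (hP : UP f n (k + 1) → UP f n k) :
    Weak f n k v := by
  by_contra hw
  have hE0 : ∀ a b : Fin 2, (0 : ℤ) ≤ if decide (a :: (v ++ [b]) ∈ F f n (k + 2)) = true
      then 1 else 0 := by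
    intro a b; split_ifs <;> norm_num
  by_cases c1 : UP f n k ∧ v = W f 0 k
  · obtain ⟨c1, c2⟩ := c1
    have hl : ∀ a : Fin 2, ¬ a :: v ∈ F f n (k + 1) := by
      intro a h
      obtain ⟨p, h1, _, h3⟩ := mem_L.1 h
      exact c1 (p + 1) (by omega) (by omega) (by rw [h3, c2])
    have hr : ¬ (v ++ [0] ∈ F f n (k + 1) ∧ v ++ [1] ∈ F f n (k + 1)) := by
      rintro ⟨h0, h1⟩
      obtain ⟨a, ha, hav, ha0⟩ := mem_R.1 h0
      obtain ⟨b, hb, hbv, hb1⟩ := mem_R.1 h1
      have ea : a = 0 := by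
        by_contra h
        exact c1 a (by omega) (by omega) (by rw [hav, c2])
      have eb : b = 0 := by
        by_contra h
        exact c1 b (by omega) (by omega) (by rw [hbv, c2])
      subst ea; subst eb
      rw [ha0] at hb1
      exact absurd hb1 (by decide)
    rw [mult_eq] at hm
    have e1 := hE0 0 0
    have e2 := hE0 0 1
    have e3 := hE0 1 0
    have e4 := hE0 1 1
    rw [if_neg (by simpa using hl 0 : ¬ decide ((0 : Fin 2) :: v ∈ F f n (k + 1)) = true),
      if_neg (by simpa using hl 1 : ¬ decide ((1 : Fin 2) :: v ∈ F f n (k + 1)) = true)] at hm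
    simp only [decide_eq_true_eq] at hm e1 e2 e3 e4
    by_cases g0 : v ++ [0] ∈ F f n (k + 1) <;> by_cases g1 : v ++ [1] ∈ F f n (k + 1)
    · exact hr ⟨g0, g1⟩
    all_goals simp only [g0, g1, if_true, if_false] at hm; linarith
  by_cases d1 : US f n k ∧ v = W f (n - k) k
  · obtain ⟨d1, d2⟩ := d1
    have hr : ∀ a : Fin 2, ¬ v ++ [a] ∈ F f n (k + 1) := by
      intro a h
      obtain ⟨p, h1, h3, _⟩ := mem_R.1 h
      exact d1 p (by omega) (by rw [h3, d2])
    have hl : ¬ (0 :: v ∈ F f n (k + 1) ∧ 1 :: v ∈ F f n (k + 1)) := by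
      rintro ⟨h0, h1⟩
      obtain ⟨a, ha, ha0, hav⟩ := mem_L.1 h0
      obtain ⟨b, hb, hb1, hbv⟩ := mem_L.1 h1
      have ea : a + 1 = n - k := by
        by_contra h
        exact d1 (a + 1) (by omega) (by rw [hav, d2])
      have eb : b + 1 = n - k := by
        by_contra h
        exact d1 (b + 1) (by omega) (by rw [hbv, d2])
      have : a = b := by omega
      subst this
      rw [ha0] at hb1
      exact absurd hb1 (by decide)
    rw [mult_eq] at hm
    have e1 := hE0 0 0
    have e2 := hE0 0 1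
    have e3 := hE0 1 0
    have e4 := hE0 1 1
    rw [if_neg (by simpa using hr 0 : ¬ decide (v ++ [(0 : Fin 2)] ∈ F f n (k + 1)) = true),
      if_neg (by simpa using hr 1 : ¬ decide (v ++ [(1 : Fin 2)] ∈ F f n (k + 1)) = true)] at hm
    simp only [decide_eq_true_eq] at hm e1 e2 e3 e4
    by_cases g0 : 0 :: v ∈ F f n (k + 1) <;> by_cases g1 : 1 :: v ∈ F f n (k + 1)
    · exact hl ⟨g0, g1⟩
    all_goals simp only [g0, g1, if_true, if_false] at hm; linarith
  have hR : ∀ b, v ++ [b] ∈ F f n (k + 1) → ∃ a : Fin 2, a :: (v ++ [b]) ∈ F f n (k + 2) := by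
    intro b hb
    obtain ⟨a, ha, hav, hab⟩ := mem_R.1 hb
    rcases Nat.eq_zero_or_pos a with h0 | h0
    · subst h0
      have hnU : ¬ UP f n (k + 1) := fun h => c1 ⟨hP h, hav.symm⟩
      unfold UP at hnU
      push Not at hnU
      obtain ⟨a', h1, h2, h3⟩ := hnU
      obtain ⟨a', rfl⟩ : ∃ c, a' = c + 1 := ⟨a' - 1, by omega⟩
      refine ⟨f a', mem_E.2 ⟨a', by omega, rfl, ?_, ?_⟩⟩
      · rw [W_sub (t := 0) (k := k) h3 (by omega)]; exact hav
      · rw [W_eq_iff] at h3
        have := h3 k (by omega)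
        rw [this]; exact hab
    · obtain ⟨a, rfl⟩ : ∃ c, a = c + 1 := ⟨a - 1, by omega⟩
      exact ⟨f a, mem_E.2 ⟨a, by omega, rfl, hav, hab⟩⟩
  have hL : ∀ a, a :: v ∈ F f n (k + 1) → ∃ b : Fin 2, a :: (v ++ [b]) ∈ F f n (k + 2) := by
    intro a ha
    obtain ⟨p, hp, hpa, hpv⟩ := mem_L.1 ha
    by_cases h0 : p + 1 + k < n
    · exact ⟨f (p + 1 + k), mem_E.2 ⟨p, by omega, hpa, hpv, rfl⟩⟩
    · have hpn : p + 1 = n - k := by omega
      have hnU : ¬ US f n (k + 1) := fun h => d1 ⟨hU h, by rw [← hpn]; exact hpv.symm⟩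
      unfold US at hnU
      push Not at hnU
      obtain ⟨a', h1, h3⟩ := hnU
      rw [show n - (k + 1) = p by omega] at h3
      refine ⟨f (a' + 1 + k), mem_E.2 ⟨a', by omega, ?_, ?_, rfl⟩⟩
      · rw [W_eq_iff] at h3
        have := h3 0 (by omega)
        rw [add_zero, add_zero] at this
        rw [this, hpa]
      · rw [W_sub (t := 1) (k := k) h3 (by omega)]; exact hpv
  have := le_mult hR hL
  rw [if_neg hw] at this
  omega

theorem exists_weak {i i' : ℕ} (hi' : i' < n) (hii : i < i') (h2 : s f n (i + 1) = 2)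
    (h1 : s f n i' = 1) (hU : US f n i ↔ US f n i') (hP : UP f n i ↔ UP f n i') :
    ∃ k, i < k ∧ k < i' ∧ ∃ z, WK f n k z := by
  obtain ⟨k, hk1, hk2, hk3⟩ : ∃ k, i < k ∧ k < i' ∧ s f n (k + 1) < s f n k := by
    by_contra h
    push Not at h
    have : ∀ t, i + 1 + t ≤ i' → 2 ≤ s f n (i + 1 + t) := by
      intro t
      induction t with
      | zero => intro _; rw [add_zero, h2]
      | succ t ih =>
        intro ht
        have := h (i + 1 + t) (by omega) (by omega)
        have := ih (by omega)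
        rw [show i + 1 + (t + 1) = i + 1 + t + 1 by omega]
        omega
    have := this (i' - i - 1) (by omega)
    rw [show i + 1 + (i' - i - 1) = i' by omega, h1] at this
    omega
  have h3 := s_succ_sub (f := f) (n := n) k
  obtain ⟨v, hv, hvm⟩ : ∃ v ∈ F f n k, mult f n k v < 0 := by
    by_contra h
    push Not at h
    have := sum_nonneg h
    omega
  refine ⟨k, hk1, hk2, v, weak_WK (weak_of_neg (by omega) hv hvm ?_ ?_)⟩
  · intro h
    exact US_mono (hU.2 (US_mono h (by omega) (by omega))) (by omega) (by omega)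
  · intro h
    exact UP_mono (hP.2 (UP_mono h (by omega))) (by omega)

/-- at most four events with the same status in a window -/
theorem no_five {e : Fin 5 → ℕ} (he : StrictMono e) (hn : ∀ m, e m < n)
    (h1 : ∀ m, s f n (e m) = 1) (h2 : ∀ m, s f n (e m + 1) = 2)
    (hU : ∀ m m', US f n (e m) ↔ US f n (e m')) (hP : ∀ m m', UP f n (e m) ↔ UP f n (e m'))
    (hw : 2 * e 4 ≤ 3 * e 0) : False := by
  have l1 : e 0 < e 1 := he (by decide)
  have l2 : e 1 < e 2 := he (by decide)
  have l3 : e 2 < e 3 := he (by decide)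
  have l4 : e 3 < e 4 := he (by decide)
  obtain ⟨k1, a1, b1, z1⟩ := exists_weak (hn 1) l1 (h2 0) (h1 1) (hU 0 1) (hP 0 1)
  obtain ⟨k2, a2, b2, z2⟩ := exists_weak (hn 2) l2 (h2 1) (h1 2) (hU 1 2) (hP 1 2)
  obtain ⟨k3, a3, b3, z3⟩ := exists_weak (hn 3) l3 (h2 2) (h1 3) (hU 2 3) (hP 2 3)
  obtain ⟨k4, a4, b4, z4⟩ := exists_weak (hn 4) l4 (h2 3) (h1 4) (hU 3 4) (hP 3 4)
  exact window (hn 0) (h1 0) (h2 0) (by omega) (by omega) (by omega) (by omega) (by omega)
    z1 z2 z3 z4

end Pool.Agent.Q289.SW
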