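import Pool.Agent.Q289.SW3

/-!
The number of events, and the number of admissible sequences of first differences.
-/

set_option autoImplicit false

namespace Pool.Agent.Q289.SW

open Finset

variable {f : ℕ → Fin 2} {n : ℕ}

theorem events_card (K : ℕ) (hK : 0 < K) :
    ((range n).filter fun j => s f n j = 1 ∧ s f n (j + 1) = 2).card ≤
      2 * K + 16 * (n / K + 1) := by
  classical
  set Ev := (range n).filter fun j => s f n j = 1 ∧ s f n (j + 1) = 2 with hEv
  have h0 : (Ev.filter fun j => j < 2 * K).card ≤ 2 * K := by
    calc _ ≤ (range (2 * K)).card := card_le_card (by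
            intro j hj
            rw [mem_filter] at hj
            exact mem_range.2 hj.2)
      _ = 2 * K := card_range _
  let g : ℕ → ℕ × (Bool × Bool) := fun j => (j / K, (decide (US f n j), decide (UP f n j)))
  have h1 : ∀ c ∈ (Ev.filter fun j => ¬ j < 2 * K).image g,
      ((Ev.filter fun j => ¬ j < 2 * K).filter fun j => g j = c).card ≤ 4 := by
    intro c _
    by_contra hlt
    obtain ⟨t, ht, hc⟩ := exists_subset_card_eq (s := (Ev.filter fun j => ¬ j < 2 * K).filter
      fun j => g j = c) (n := 5) (by omega)
    have hm : ∀ m : Fin 5, t.orderEmbOfFin hc m < n ∧ s f n (t.orderEmbOfFin hc m) = 1 ∧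
        s f n (t.orderEmbOfFin hc m + 1) = 2 ∧ 2 * K ≤ t.orderEmbOfFin hc m ∧
        g (t.orderEmbOfFin hc m) = c := by
      intro m
      have := ht (t.orderEmbOfFin_mem hc m)
      rw [mem_filter, mem_filter, hEv, mem_filter, mem_range] at this
      refine ⟨this.1.1.1, this.1.1.2.1, this.1.1.2.2, by omega, this.2⟩
    refine no_five (f := f) (n := n) (e := fun m => t.orderEmbOfFin hc m)
      (fun a b hab => (t.orderEmbOfFin hc).strictMono hab)
      (fun m => (hm m).1) (fun m => (hm m).2.1) (fun m => (hm m).2.2.1) ?_ ?_ ?_
    · intro m m'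
      have := (hm m).2.2.2.2.trans (hm m').2.2.2.2.symm
      simp only [g, Prod.mk.injEq, decide_eq_decide] at this
      exact this.2.1
    · intro m m'
      have := (hm m).2.2.2.2.trans (hm m').2.2.2.2.symm
      simp only [g, Prod.mk.injEq, decide_eq_decide] at this
      exact this.2.2
    · have h5 := (hm 4).2.2.2.2.trans (hm 0).2.2.2.2.symm
      simp only [g, Prod.mk.injEq] at h5
      have h6 := (hm 0).2.2.2.1
      have h7 := Nat.div_add_mod (t.orderEmbOfFin hc 4) K
      have h8 := Nat.div_add_mod (t.orderEmbOfFin hc 0) K
      have h9 := Nat.mod_lt (t.orderEmbOfFin hc 4) hK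
      have h10 := Nat.mod_lt (t.orderEmbOfFin hc 0) hK
      rw [h5.1] at h7
      show 2 * t.orderEmbOfFin hc 4 ≤ 3 * t.orderEmbOfFin hc 0
      omega
  have h2 := card_le_mul_card_image (f := g) (Ev.filter fun j => ¬ j < 2 * K) 4 h1
  have h3 : ((Ev.filter fun j => ¬ j < 2 * K).image g).card ≤ (n / K + 1) * 4 := by
    calc _ ≤ (range (n / K + 1) ×ˢ (univ : Finset (Bool × Bool))).card := card_le_card (by
            intro c hc
            rw [mem_image] at hc
            obtain ⟨j, hj, rfl⟩ := hc
            rw [mem_filter, hEv, mem_filter, mem_range] at hj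
            rw [mem_product, mem_range]
            refine ⟨?_, mem_univ _⟩
            have := Nat.div_le_div_right (c := K) hj.1.1.le
            show j / K < n / K + 1
            omega)
      _ = (n / K + 1) * 4 := by rw [card_product, card_range]; rfl
  have h4 := card_filter_add_card_filter_not (s := Ev) (fun j => j < 2 * K)
  omega

/-! ### Admissible lists -/

/-- `Good ℓ m s b`: the parts `t + 1`, `t ∈ ℓ`, sum to `m`, each element is at most twice the
preceding one (the first at most twice `s`) and there are at most `b` steps from `1` to `2` -/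
def Good : List ℕ → ℕ → ℕ → ℕ → Prop
  | [], m, _, _ => m = 0
  | t :: ℓ, m, s, b => t + 1 ≤ m ∧ t ≤ 2 * s ∧
      (if s = 1 ∧ t = 2 then 1 ≤ b ∧ Good ℓ (m - (t + 1)) t (b - 1)
        else Good ℓ (m - (t + 1)) t b)

/-- `x ^ 2` where `x = 100 / 141` -/
noncomputable def qq : ℝ := (100 / 141) ^ 2

/-- the weights -/
noncomputable def hh (s : ℕ) : ℝ :=
  if s = 0 then 1 else if s = 1 then 5 / 2 else 1024 * (1 - 7 / 4 * qq ^ s)

noncomputable def cc (s t : ℕ) : ℝ := if s = 1 ∧ t = 2 then 1 / 512 else 1

theorem qq_pos : 0 < qq := by unfold qq; norm_num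

theorem qq_lt : qq < 1 := by unfold qq; norm_num

theorem hh_one_le (s : ℕ) : 1 ≤ hh s := by
  unfold hh
  split_ifs with h0 h1
  · exact le_rfl
  · norm_num
  · have : qq ^ s ≤ qq ^ 2 := pow_le_pow_of_le_one qq_pos.le qq_lt.le (by omega)
    have h2 : qq ^ 2 ≤ 3 / 10 := by unfold qq; norm_num
    linarith

theorem tail_sum (s : ℕ) (hs : 2 ≤ s) :
    ∑ t ∈ Ico 2 (2 * s + 1), (1 - 7 / 4 * qq ^ t) * (100 / 141 : ℝ) ^ (t + 1) ≤
      996 / 1000 * (1 - 7 / 4 * qq ^ s) := by
  induction s, hs using Nat.le_induction with
  | base =>
    rw [show Ico 2 (2 * 2 + 1) = {2, 3, 4} by decide]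
    rw [sum_insert (by decide), sum_insert (by decide), sum_singleton]
    unfold qq
    norm_num
  | succ s hs ih =>
    rw [show 2 * (s + 1) + 1 = 2 * s + 1 + 1 + 1 by ring, sum_Ico_succ_top (by omega),
      sum_Ico_succ_top (by omega)]
    have e1 : (100 / 141 : ℝ) ^ (2 * s + 1 + 1) = qq ^ s * (100 / 141) ^ 2 := by
      rw [show 2 * s + 1 + 1 = 2 * s + 2 by ring, pow_add, pow_mul]; rfl
    have e2 : (100 / 141 : ℝ) ^ (2 * s + 1 + 1 + 1) = qq ^ s * (100 / 141) ^ 3 := by
      rw [show 2 * s + 1 + 1 + 1 = 2 * s + 3 by ring, pow_add, pow_mul]; rfl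
    rw [e1, e2, pow_succ qq s]
    have hq : 0 < qq ^ s := pow_pos qq_pos s
    have g1 : (1 - 7 / 4 * qq ^ (2 * s + 1)) * (qq ^ s * (100 / 141) ^ 2) ≤
        1 * (qq ^ s * (100 / 141) ^ 2) :=
      mul_le_mul_of_nonneg_right (by have := pow_pos qq_pos (2 * s + 1); linarith) (by positivity)
    have g2 : (1 - 7 / 4 * qq ^ (2 * s + 1 + 1)) * (qq ^ s * (100 / 141) ^ 3) ≤
        1 * (qq ^ s * (100 / 141) ^ 3) :=
      mul_le_mul_of_nonneg_right (by have := pow_pos qq_pos (2 * s + 1 + 1); linarith)
        (by positivity)
    have g3 : (0 : ℝ) ≤ qq ^ s * (996 / 1000 * (7 / 4) * (1 - qq) - (100 / 141) ^ 2 -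
        (100 / 141) ^ 3) := mul_nonneg hq.le (by unfold qq; norm_num)
    nlinarith [ih, g1, g2, g3]

theorem hh_step (s : ℕ) :
    ∑ t ∈ range (2 * s + 1), cc s t * hh t * (100 / 141 : ℝ) ^ (t + 1) ≤ hh s := by
  rcases Nat.lt_or_ge s 2 with h | h
  · interval_cases s
    · rw [show range (2 * 0 + 1) = {0} by decide, sum_singleton]
      unfold cc hh
      norm_num
    · rw [show range (2 * 1 + 1) = {0, 1, 2} by decide, sum_insert (by decide),
        sum_insert (by decide), sum_singleton]
      unfold cc hh qq
      norm_num
  · rw [range_eq_Ico, ← sum_Ico_consecutive _ (show 0 ≤ 2 by omega) (show 2 ≤ 2 * s + 1 by omega)]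
    have h1 : ∑ t ∈ Ico 0 2, cc s t * hh t * (100 / 141 : ℝ) ^ (t + 1) ≤ 2 := by
      have c0 : cc s 0 = 1 := by unfold cc; rw [if_neg (by omega)]
      have c1 : cc s 1 = 1 := by unfold cc; rw [if_neg (by omega)]
      have d0 : hh 0 = 1 := by unfold hh; norm_num
      have d1 : hh 1 = 5 / 2 := by unfold hh; norm_num
      rw [show Ico 0 2 = {0, 1} by decide, sum_insert (by decide), sum_singleton, c0, c1, d0, d1]
      norm_num
    have h2 : ∑ t ∈ Ico 2 (2 * s + 1), cc s t * hh t * (100 / 141 : ℝ) ^ (t + 1) =
        1024 * ∑ t ∈ Ico 2 (2 * s + 1), (1 - 7 / 4 * qq ^ t) * (100 / 141 : ℝ) ^ (t + 1) := by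
      rw [mul_sum]
      apply sum_congr rfl
      intro t ht
      rw [mem_Ico] at ht
      unfold cc hh
      rw [if_neg (by omega), if_neg (by omega), if_neg (by omega)]
      ring
    have h3 := tail_sum s h
    have h4 : hh s = 1024 * (1 - 7 / 4 * qq ^ s) := by
      unfold hh
      rw [if_neg (by omega), if_neg (by omega)]
    have h5 : qq ^ s ≤ qq ^ 2 := pow_le_pow_of_le_one qq_pos.le qq_lt.le h
    have h6 : qq ^ 2 ≤ 254 / 1000 := by unfold qq; norm_num
    rw [h2, h4]
    linarith

theorem good_card (m : ℕ) : ∀ (s b : ℕ) (S : Finset (List ℕ)), (∀ ℓ ∈ S, Good ℓ m s b) →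
    (S.card : ℝ) ≤ hh s * 512 ^ b * (141 / 100) ^ m := by
  classical
  induction m using Nat.strong_induction_on with
  | _ m ih =>
    intro s b S hS
    rcases Nat.eq_zero_or_pos m with h0 | h0
    · subst h0
      have h1 : S ⊆ {[]} := by
        intro ℓ hℓ
        have := hS ℓ hℓ
        cases ℓ with
        | nil => simp
        | cons t ℓ =>
          unfold Good at this
          omega
      have h2 := card_le_card h1
      rw [card_singleton] at h2
      have h3 : (1 : ℝ) ≤ hh s * 512 ^ b * (141 / 100) ^ 0 := by
        rw [pow_zero, mul_one]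
        have := hh_one_le s
        have h4 : (1 : ℝ) ≤ 512 ^ b := one_le_pow₀ (by norm_num)
        nlinarith
      refine le_trans ?_ h3
      exact_mod_cast h2
    · have hmaps : ∀ ℓ ∈ S, ℓ.headD 0 ∈ range (2 * s + 1) := by
        intro ℓ hℓ
        have := hS ℓ hℓ
        cases ℓ with
        | nil => unfold Good at this; omega
        | cons t ℓ =>
          unfold Good at this
          rw [mem_range, List.headD_cons]
          omega
      rw [card_eq_sum_card_fiberwise hmaps]
      push_cast
      have hstep : ∀ t ∈ range (2 * s + 1),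
          ((S.filter fun ℓ => ℓ.headD 0 = t).card : ℝ) ≤
            cc s t * hh t * (100 / 141 : ℝ) ^ (t + 1) * (512 ^ b * (141 / 100) ^ m) := by
        intro t _
        have hnn : 0 ≤ cc s t * hh t * (100 / 141 : ℝ) ^ (t + 1) *
            (512 ^ b * (141 / 100) ^ m) := by
          have h1 : 0 ≤ cc s t := by unfold cc; split_ifs <;> norm_num
          have h2 := (zero_le_one.trans (hh_one_le t))
          positivity
        -- the filter is the image of its tails
        have hinj : (S.filter fun ℓ => ℓ.headD 0 = t).card =
            ((S.filter fun ℓ => ℓ.headD 0 = t).image List.tail).card := by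
          rw [card_image_of_injOn]
          intro ℓ hℓ ℓ' hℓ' h
          rw [mem_coe, mem_filter] at hℓ hℓ'
          have g := hS ℓ hℓ.1
          have g' := hS ℓ' hℓ'.1
          cases ℓ with
          | nil => unfold Good at g; omega
          | cons a ℓ =>
            cases ℓ' with
            | nil => unfold Good at g'; omega
            | cons a' ℓ' =>
              simp only [List.headD_cons, List.tail_cons] at hℓ hℓ' h
              rw [hℓ.2, hℓ'.2, h]
        by_cases htm : t + 1 ≤ m
        · have hpow : (141 / 100 : ℝ) ^ (m - (t + 1)) = (100 / 141) ^ (t + 1) * (141 / 100) ^ m := by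
            obtain ⟨r, hr⟩ := Nat.exists_eq_add_of_le htm
            rw [hr, Nat.add_sub_cancel_left, pow_add (141 / 100 : ℝ) (t + 1) r, ← mul_assoc,
              ← mul_pow]
            norm_num
          by_cases hev : s = 1 ∧ t = 2
          · by_cases hb : 1 ≤ b
            · have h1 := ih (m - (t + 1)) (by omega) t (b - 1)
                ((S.filter fun ℓ => ℓ.headD 0 = t).image List.tail) (by
                  intro ℓ' hℓ'
                  rw [mem_image] at hℓ'
                  obtain ⟨ℓ, hℓ, rfl⟩ := hℓ'
                  rw [mem_filter] at hℓ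
                  have g := hS ℓ hℓ.1
                  cases ℓ with
                  | nil => unfold Good at g; omega
                  | cons a ℓ =>
                    simp only [List.headD_cons] at hℓ
                    rw [hℓ.2] at g
                    unfold Good at g
                    rw [if_pos hev] at g
                    exact g.2.2.2)
              rw [hinj]
              refine h1.trans (le_of_eq ?_)
              rw [hpow]
              unfold cc
              rw [if_pos hev]
              obtain ⟨b', rfl⟩ : ∃ b', b = b' + 1 := ⟨b - 1, by omega⟩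
              rw [Nat.add_sub_cancel, pow_succ (512 : ℝ) b']
              ring
            · have : S.filter (fun ℓ => ℓ.headD 0 = t) = ∅ := by
                rw [filter_eq_empty_iff]
                intro ℓ hℓ hh'
                have g := hS ℓ hℓ
                cases ℓ with
                | nil => unfold Good at g; omega
                | cons a ℓ =>
                  simp only [List.headD_cons] at hh'
                  rw [hh'] at g
                  unfold Good at g
                  rw [if_pos hev] at g
                  exact hb g.2.2.1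
              rw [this, card_empty]
              exact_mod_cast hnn
          · have h1 := ih (m - (t + 1)) (by omega) t b
              ((S.filter fun ℓ => ℓ.headD 0 = t).image List.tail) (by
                intro ℓ' hℓ'
                rw [mem_image] at hℓ'
                obtain ⟨ℓ, hℓ, rfl⟩ := hℓ'
                rw [mem_filter] at hℓ
                have g := hS ℓ hℓ.1
                cases ℓ with
                | nil => unfold Good at g; omega
                | cons a ℓ =>
                  simp only [List.headD_cons] at hℓ
                  rw [hℓ.2] at g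
                  unfold Good at g
                  rw [if_neg hev] at g
                  exact g.2.2)
            rw [hinj]
            refine h1.trans (le_of_eq ?_)
            rw [hpow]
            unfold cc
            rw [if_neg hev]
            ring
        · have : S.filter (fun ℓ => ℓ.headD 0 = t) = ∅ := by
            rw [filter_eq_empty_iff]
            intro ℓ hℓ hh'
            have g := hS ℓ hℓ
            cases ℓ with
            | nil => unfold Good at g; omega
            | cons a ℓ =>
              simp only [List.headD_cons] at hh'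
              rw [hh'] at g
              unfold Good at g
              exact htm g.1
          rw [this, card_empty]
          exact_mod_cast hnn
      refine (sum_le_sum hstep).trans ?_
      rw [← sum_mul, mul_assoc (hh s)]
      exact mul_le_mul_of_nonneg_right (hh_step s) (by positivity)

/-- from sequences to admissible lists -/
theorem good_of_seq (u : ℕ → ℕ) (M : ℕ) : ∀ a b : ℕ, (∀ i < M, u (a + i + 1) ≤ 2 * u (a + i)) →
    (∑ i ∈ range M, (if u (a + i) = 1 ∧ u (a + i + 1) = 2 then 1 else 0)) ≤ b →
    Good ((List.range M).map fun i => u (a + i + 1)) (∑ i ∈ range M, (u (a + i + 1) + 1))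
      (u a) b := by
  induction M with
  | zero =>
    intro a b _ _
    simp [Good]
  | succ M ih =>
    intro a b hg hb
    rw [List.range_succ_eq_map, List.map_cons, List.map_map]
    rw [sum_range_succ'] at hb ⊢
    rw [add_zero] at hb ⊢
    have e : ((fun i => u (a + i + 1)) ∘ Nat.succ) = fun i => u ((a + 1) + i + 1) := by
      funext i
      simp only [Function.comp]
      congr 1
      omega
    have e2 : ∑ i ∈ range M, (u (a + (i + 1) + 1) + 1) = ∑ i ∈ range M, (u ((a + 1) + i + 1) + 1) := by
      apply sum_congr rfl
      intro i _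
      congr 2
      omega
    have e3 : (∑ i ∈ range M, (if u (a + (i + 1)) = 1 ∧ u (a + (i + 1) + 1) = 2 then 1 else 0)) =
        ∑ i ∈ range M, (if u ((a + 1) + i) = 1 ∧ u ((a + 1) + i + 1) = 2 then 1 else 0) := by
      apply sum_congr rfl
      intro i _
      rw [show a + (i + 1) = a + 1 + i by omega]
    rw [e, e2]
    rw [e3] at hb
    unfold Good
    refine ⟨by omega, by have := hg 0 (by omega); simpa using this, ?_⟩
    rw [show ∑ i ∈ range M, (u ((a + 1) + i + 1) + 1) + (u (a + 1) + 1) - (u (a + 1) + 1) =
      ∑ i ∈ range M, (u ((a + 1) + i + 1) + 1) by omega]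
    have hg' : ∀ i < M, u (a + 1 + i + 1) ≤ 2 * u (a + 1 + i) := by
      intro i hi
      have := hg (i + 1) (by omega)
      rw [show a + (i + 1) = a + 1 + i by omega] at this
      exact this
    split_ifs with hev
    · rw [if_pos hev] at hb
      exact ⟨by omega, ih (a + 1) (b - 1) hg' (by omega)⟩
    · rw [if_neg hev, add_zero] at hb
      exact ih (a + 1) b hg' hb

end Pool.Agent.Q289.SW
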