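import Pool.Agent.Q289.SW4

/-!
The number of subword complexity sequences of binary words of length `n` is `O(c ^ n)` with
`c < √2`.
-/

set_option autoImplicit false

namespace Pool.Agent.Q289.SW

open Finset Filter

/-- `p_w(m)`: the number of distinct subwords (factors) of length `m` of `w` -/
noncomputable def factorCount {α : Type*} (w : List α) (m : ℕ) : ℕ :=
  {u : List α | u <:+: w ∧ u.length = m}.ncard

/-- the subword complexity sequence `(p_w(1), …, p_w(n))`, where `n` is the length of `w` -/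
noncomputable def complexitySeq {α : Type*} (w : List α) : List ℕ :=
  (List.range w.length).map fun i => factorCount w (i + 1)

/-- `a_k(n)`: the number of distinct subword complexity sequences of words of length `n` over an
alphabet with `k` letters -/
noncomputable def numSeq (k n : ℕ) : ℕ :=
  {p : List ℕ | ∃ w : List (Fin k), w.length = n ∧ complexitySeq w = p}.ncard

/-- the function given by a word -/
def fw (w : List (Fin 2)) : ℕ → Fin 2 := fun i => w.getD i 0

theorem W_getElem (f : ℕ → Fin 2) (a j i : ℕ) (h : i < (W f a j).length) :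
    (W f a j)[i] = f (a + i) := by
  simp [W]

theorem W_fw {w : List (Fin 2)} {a m : ℕ} (h : a + m ≤ w.length) :
    W (fw w) a m = (w.drop a).take m := by
  apply List.ext_getElem
  · rw [W_length, List.length_take, List.length_drop]
    omega
  · intro i h1 h2
    rw [W_length] at h1
    rw [W_getElem, List.getElem_take, List.getElem_drop]
    unfold fw
    rw [List.getD_eq_getElem _ _ (by omega)]

theorem factorCount_eq (w : List (Fin 2)) (m : ℕ) :
    factorCount w m = (F (fw w) w.length m).card := by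
  unfold factorCount
  rw [← Set.ncard_coe_finset]
  congr 1
  ext u
  rw [Set.mem_ofPred_eq, mem_coe, mem_F]
  constructor
  · rintro ⟨⟨s, t, hst⟩, hu⟩
    refine ⟨s.length, ?_, ?_⟩
    · rw [← hst, List.length_append, List.length_append]; omega
    · rw [W_fw (by rw [← hst, List.length_append, List.length_append]; omega), ← hst,
        List.append_assoc, List.drop_left, List.take_left' hu]
  · rintro ⟨a, ha, rfl⟩
    refine ⟨?_, W_length _ _⟩
    rw [W_fw ha]
    exact (List.take_prefix _ _).isInfix.trans (List.drop_suffix _ _).isInfix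

/-- recover the complexities from the first differences -/
def G (n : ℕ) (ℓ : List ℕ) : List ℕ :=
  (List.range n).map fun j =>
    (1 + ∑ i ∈ range (j + 1), (if i < ℓ.length then ((ℓ.getD i 0 : ℕ) : ℤ) else -1)).toNat

theorem card_F_zero (f : ℕ → Fin 2) (n : ℕ) : (F f n 0).card = 1 := by
  rw [card_eq_one]
  refine ⟨[], ?_⟩
  ext u
  rw [mem_F, mem_singleton]
  constructor
  · rintro ⟨a, _, rfl⟩
    simp [W]
  · rintro rfl
    exact ⟨0, by omega, by simp [W]⟩

theorem exists_list (w : List (Fin 2)) (K : ℕ) (hK : 0 < K) :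
    ∃ ℓ : List ℕ, Good ℓ w.length 1 (2 * K + 16 * (w.length / K + 1)) ∧
      complexitySeq w = G w.length ℓ := by
  classical
  obtain ⟨n, hn⟩ : ∃ n, n = w.length := ⟨_, rfl⟩
  obtain ⟨f, hf⟩ : ∃ f, f = fw w := ⟨_, rfl⟩
  have hex : ∃ j, s f n j = -1 := ⟨n, s_last⟩
  obtain ⟨M, hM⟩ : ∃ M, M = Nat.find hex := ⟨_, rfl⟩
  have hM1 : s f n M = -1 := by rw [hM]; exact Nat.find_spec hex
  have hMn : M ≤ n := by rw [hM]; exact Nat.find_min' hex s_last
  have hlt : ∀ j < M, 0 ≤ s f n j := by
    intro j hj
    have h1 := s_ge (f := f) (show j ≤ n by omega)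
    have h2 : s f n j ≠ -1 := Nat.find_min hex (by rw [← hM]; exact hj)
    omega
  have hge : ∀ t, M + t ≤ n → s f n (M + t) = -1 := by
    intro t
    induction t with
    | zero => intro _; exact hM1
    | succ t ih => intro h; exact s_neg (by omega) (ih (by omega))
  obtain ⟨u, hu⟩ : ∃ u : ℕ → ℕ, u = fun j => if j = 0 then 1 else (s f n (j - 1)).toNat :=
    ⟨_, rfl⟩
  have hu0 : u 0 = 1 := by rw [hu]; simp
  have hus : ∀ i, u (i + 1) = (s f n i).toNat := by intro i; rw [hu]; simp
  have hs0 : s f n 0 ≤ 1 := by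
    rw [s_RS (by omega)]
    have h1 : (RS f n 0).card ≤ (F f n 0).card := card_le_card (filter_subset _ _)
    rw [card_F_zero] at h1
    split_ifs <;> omega
  have hgrow : ∀ i < M, u (0 + i + 1) ≤ 2 * u (0 + i) := by
    intro i hi
    rw [zero_add, hus]
    cases i with
    | zero => rw [hu0]; omega
    | succ i =>
      rw [hus]
      have h1 := s_grow (f := f) (n := n) (j := i) (by omega) (hlt i (by omega))
      have h2 := hlt i (by omega)
      omega
  have hev : (∑ i ∈ range M, (if u (0 + i) = 1 ∧ u (0 + i + 1) = 2 then 1 else 0)) ≤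
      2 * K + 16 * (n / K + 1) := by
    rw [← card_filter]
    refine le_trans ?_ (events_card (f := f) (n := n) K hK)
    refine le_trans (card_le_card (t := ((range n).filter fun j => s f n j = 1 ∧
      s f n (j + 1) = 2).image Nat.succ) ?_) card_image_le
    intro i hi
    rw [mem_filter, mem_range, zero_add, hus] at hi
    rw [mem_image]
    cases i with
    | zero => omega
    | succ i =>
      refine ⟨i, ?_, rfl⟩
      rw [hus] at hi
      rw [mem_filter, mem_range]
      omega
  have hcard : ∀ j, ((F f n j).card : ℤ) = 1 + ∑ i ∈ range j, s f n i := by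
    intro j
    induction j with
    | zero => rw [card_F_zero]; simp
    | succ j ih => rw [sum_range_succ, ← add_assoc, ← ih]; unfold s; ring
  have hsum1 : ∑ i ∈ range M, s f n i = (n : ℤ) - M := by
    have h1 := hcard (n + 1)
    have h2 : (F f n (n + 1)).card = 0 := by unfold F; simp
    rw [h2] at h1
    have h3 : ∑ i ∈ range (n + 1), s f n i = ∑ i ∈ range M, s f n i + ∑ i ∈ Ico M (n + 1), (-1 : ℤ) := by
      rw [← sum_range_add_sum_Ico _ (show M ≤ n + 1 by omega)]
      congr 1
      apply sum_congr rfl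
      intro i hi
      rw [mem_Ico] at hi
      have := hge (i - M) (by omega)
      rwa [show M + (i - M) = i by omega] at this
    rw [h3, sum_const, Nat.card_Ico, nsmul_eq_mul] at h1
    push_cast [show M ≤ n + 1 by omega] at h1
    linarith
  have hsum : ∑ i ∈ range M, (u (0 + i + 1) + 1) = n := by
    zify
    rw [sum_add_distrib, sum_const, card_range]
    have : ∑ i ∈ range M, (u (0 + i + 1) : ℤ) = ∑ i ∈ range M, s f n i := by
      apply sum_congr rfl
      intro i hi
      rw [mem_range] at hi
      rw [zero_add, hus]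
      exact Int.toNat_of_nonneg (hlt i hi)
    rw [this, hsum1]
    simp
  have hgood := good_of_seq u M 0 _ hgrow hev
  rw [hsum, hu0] at hgood
  refine ⟨_, by rw [← hn]; exact hgood, ?_⟩
  unfold complexitySeq G
  rw [← hn]
  apply List.map_congr_left
  intro j hj
  rw [List.mem_range] at hj
  rw [factorCount_eq, ← hf, ← hn]
  have h1 := hcard (j + 1)
  have h2 : ∀ i ∈ range (j + 1), s f n i =
      (if i < ((List.range M).map fun i => u (0 + i + 1)).length then
        (((((List.range M).map fun i => u (0 + i + 1)).getD i 0 : ℕ)) : ℤ) else -1) := by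
    intro i hi
    rw [mem_range] at hi
    rw [List.length_map, List.length_range]
    split_ifs with hiM
    · rw [List.getD_eq_getElem _ _ (by rw [List.length_map, List.length_range]; exact hiM),
        List.getElem_map, List.getElem_range, zero_add, hus]
      exact (Int.toNat_of_nonneg (hlt i hiM)).symm
    · have := hge (i - M) (by omega)
      rwa [show M + (i - M) = i by omega] at this
  rw [sum_congr rfl h2] at h1
  rw [← h1]
  simp

theorem numSeq_le (n K : ℕ) (hK : 0 < K) : (numSeq 2 n : ℝ) ≤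
    5 / 2 * 512 ^ (2 * K + 16 * (n / K + 1)) * (141 / 100) ^ n := by
  classical
  have hex := fun w : List (Fin 2) => exists_list w K hK
  choose L hL1 hL2 using hex
  have hfin : {w : List (Fin 2) | w.length = n}.Finite := List.finite_length_eq (Fin 2) n
  have e1 : {p : List ℕ | ∃ w : List (Fin 2), w.length = n ∧ complexitySeq w = p} =
      G n '' (L '' {w : List (Fin 2) | w.length = n}) := by
    ext p
    constructor
    · rintro ⟨w, hw, rfl⟩
      exact ⟨L w, ⟨w, hw, rfl⟩, by rw [hL2, hw]⟩
    · rintro ⟨_, ⟨w, hw, rfl⟩, rfl⟩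
      refine ⟨w, hw, ?_⟩
      rw [hL2, hw]
  have hfin2 : (L '' {w : List (Fin 2) | w.length = n}).Finite := hfin.image _
  have h1 : numSeq 2 n ≤ hfin2.toFinset.card := by
    unfold numSeq
    rw [e1, ← Set.ncard_eq_toFinset_card _ hfin2]
    exact Set.ncard_image_le hfin2
  have h2 := good_card n 1 (2 * K + 16 * (n / K + 1)) hfin2.toFinset (by
    intro ℓ hℓ
    rw [Set.Finite.mem_toFinset] at hℓ
    obtain ⟨w, hw, rfl⟩ := hℓ
    have := hL1 w
    rw [hw] at this
    exact this)
  have h3 : hh 1 = 5 / 2 := by unfold hh; norm_num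
  rw [h3] at h2
  exact le_trans (by exact_mod_cast h1) h2

/-- exponential upper bound with base smaller than `√2` -/
theorem exp_bound : ∃ C c : ℝ, 0 < c ∧ c < Real.sqrt 2 ∧ ∀ n : ℕ, (numSeq 2 n : ℝ) ≤ C * c ^ n := by
  obtain ⟨K, hKdef⟩ : ∃ K : ℕ, K = 2 * (128 * 145) := ⟨_, rfl⟩
  have hK : 0 < K := by omega
  obtain ⟨d, hd⟩ : ∃ d : ℝ, d = ((2 : ℝ) ^ 144) ^ ((1 : ℝ) / K) := ⟨_, rfl⟩
  have hd1 : 1 ≤ d := by
    rw [hd]
    exact Real.one_le_rpow (by norm_num) (by positivity)
  have hdK : d ^ K = 2 ^ 144 := by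
    rw [hd, ← Real.rpow_natCast, ← Real.rpow_mul (by positivity)]
    rw [one_div, inv_mul_cancel₀ (by positivity : (K : ℝ) ≠ 0), Real.rpow_one]
  refine ⟨5 / 2 * 512 ^ (2 * K + 16), 141 / 100 * d, by positivity, ?_, ?_⟩
  · have h1 : (141 / 100 * d) ^ 2 < 2 := by
      have h2 : ((141 / 100 * d) ^ 2) ^ (128 * 145) < 2 ^ (128 * 145) := by
        rw [mul_pow, mul_pow, ← pow_mul d, ← hKdef, hdK]
        have h3 : ((141 / 100 : ℝ) ^ 2) ^ (128 * 145) * 2 ^ 145 ≤ 2 ^ (128 * 145) := by
          rw [pow_mul, pow_mul (2 : ℝ), ← mul_pow]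
          apply pow_le_pow_left₀ (by positivity)
          norm_num
        have h4 : ((141 / 100 : ℝ) ^ 2) ^ (128 * 145) * 2 ^ 144 <
            ((141 / 100 : ℝ) ^ 2) ^ (128 * 145) * 2 ^ 145 := by
          apply mul_lt_mul_of_pos_left _ (by positivity)
          norm_num
        exact h4.trans_le h3
      exact lt_of_pow_lt_pow_left₀ _ (by norm_num) h2
    rw [Real.lt_sqrt (by positivity)]
    exact h1
  · intro n
    refine (numSeq_le n K hK).trans ?_
    have h1 : (512 : ℝ) ^ (2 * K + 16 * (n / K + 1)) = 512 ^ (2 * K + 16) * (2 ^ 144) ^ (n / K) := by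
      rw [show (2 * K + 16 * (n / K + 1)) = (2 * K + 16) + 16 * (n / K) by ring, pow_add,
        pow_mul (512 : ℝ) 16]
      norm_num
    have h2 : ((2 : ℝ) ^ 144) ^ (n / K) ≤ d ^ n := by
      rw [← hdK, ← pow_mul]
      exact pow_le_pow_right₀ hd1 (Nat.mul_div_le n K)
    rw [h1, mul_pow]
    calc 5 / 2 * (512 ^ (2 * K + 16) * ((2 : ℝ) ^ 144) ^ (n / K)) * (141 / 100) ^ n
        ≤ 5 / 2 * (512 ^ (2 * K + 16) * d ^ n) * (141 / 100) ^ n := by gcongr
      _ = _ := by ring

theorem tendsto_zero :
    Tendsto (fun n : ℕ => (numSeq 2 n : ℝ) / (2 : ℝ) ^ ((n : ℝ) / 2)) atTop (nhds 0) := by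
  obtain ⟨C, c, hc0, hc, h⟩ := exp_bound
  have h2 : ∀ n : ℕ, (2 : ℝ) ^ ((n : ℝ) / 2) = Real.sqrt 2 ^ n := by
    intro n
    rw [Real.sqrt_eq_rpow, ← Real.rpow_natCast, ← Real.rpow_mul (by norm_num)]
    congr 1
    ring
  have hs : 0 < Real.sqrt 2 := by positivity
  have h3 : Tendsto (fun n : ℕ => C * (c / Real.sqrt 2) ^ n) atTop (nhds 0) := by
    have := (tendsto_pow_atTop_nhds_zero_of_lt_one (r := c / Real.sqrt 2) (by positivity)
      ((div_lt_one hs).2 hc)).const_mul C
    simpa using this
  refine squeeze_zero (fun n => by positivity) (fun n => ?_) h3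
  rw [h2, div_pow, ← mul_div_assoc]
  exact div_le_div_of_nonneg_right (h n) (by positivity)

end Pool.Agent.Q289.SW
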